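import Pool.Agent.Lib.MP_688fd0_co.SQ5.H84.NumLay

/-!
Type C2, threads over far bases (helper84): monotonicity of the list of the inequalities `NumT`.
-/

set_option autoImplicit false

namespace Pool.Agent.Lib.MP_688fd0_co.SQ5.H84

open Pool.Agent.Lib.MP_688fd0_co.SQ5.H24

variable {m0 n kq KV cS mm e o pd nh m TT Gr K E gap U : ℕ}

/-- Fewer visits. -/
theorem NumT.le_n (D : NumT m0 n kq KV cS mm e o pd nh m TT Gr K E gap U) {n' : ℕ} (h : n' ≤ n) :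
    NumT m0 n' kq KV cS mm e o pd nh m TT Gr K E gap U := by
  have h2 : n' ^ 2 ≤ n ^ 2 := Nat.pow_le_pow_left h 2
  have h4 : 4 ^ (40 * n' ^ 2) ≤ 4 ^ (40 * n ^ 2) := Nat.pow_le_pow_right (by norm_num) (by omega)
  have h5 : 4 ^ (40 * n' ^ 2 + 1) ≤ 4 ^ (40 * n ^ 2 + 1) := Nat.pow_le_pow_right (by norm_num) (by omega)
  have h6 : 8 * o * (2 * (4 ^ (40 * n' ^ 2) * (30 + 5 * (gap + 2))) + 3) ≤
      8 * o * (2 * (4 ^ (40 * n ^ 2) * (30 + 5 * (gap + 2))) + 3) :=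
    Nat.mul_le_mul_left _ (Nat.add_le_add_right (Nat.mul_le_mul_left _ (Nat.mul_le_mul_right _ h4)) _)
  have hV := D.hV
  have hU := D.hU
  have hG := D.hG
  have hE2 := D.hE2
  have hE3 := D.hE3
  refine { D with hV := ?_, hU := by omega, hG := by omega, hE2 := ?_, hE3 := ?_ }
  · exact lt_of_le_of_lt (Nat.mul_le_mul_right _ (by omega)) hV
  · exact (Nat.mul_le_mul_right _ (by omega)).trans hE2
  · refine le_trans ?_ hE3
    refine Nat.add_le_add_right (Nat.mul_le_mul_left _ (Nat.mul_le_mul (Nat.mul_le_mul_right _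
      (Nat.mul_le_mul_left _ (by omega))) (Nat.mul_le_mul_right _ h5))) _

/-- Fewer layers. -/
theorem NumT.le_mm (D : NumT m0 n kq KV cS mm e o pd nh m TT Gr K E gap U) {mm' : ℕ} (h : mm' ≤ mm) :
    NumT m0 n kq KV cS mm' e o pd nh m TT Gr K E gap U :=
  { D with hgap := le_trans (Nat.mul_le_mul_left _ (Nat.mul_le_mul_right _ (Nat.mul_le_mul_left _ h))) D.hgap }

/-- Sums of moderate functions. -/
theorem GrowK.add {f g : ℕ → ℕ} (hf : GrowK f) (hg : GrowK g) : GrowK fun k => f k + g k := by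
  obtain ⟨a, ha⟩ := hf
  obtain ⟨b, hb⟩ := hg
  let I := {x : ℕ × ℕ // 4 ≤ x.1 ∧ x.2 ≤ x.1}
  have hS : ∀ i : I, 4 ≤ i.1.1 := fun i => i.2.1
  have h1 : Ex (fun i : I => i.1.1) fun i => f i.1.2 := ⟨a, fun i => ha _ _ i.2.1 i.2.2⟩
  have h2 : Ex (fun i : I => i.1.1) fun i => g i.1.2 := ⟨b, fun i => hb _ _ i.2.1 i.2.2⟩
  obtain ⟨c, hc⟩ := Ex.add hS h1 h2
  exact ⟨c, fun S k h3 h4 => hc ⟨(S, k), h3, h4⟩⟩

theorem GrowK.const (m : ℕ) : GrowK fun _ => m := by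
  let I := {x : ℕ × ℕ // 4 ≤ x.1 ∧ x.2 ≤ x.1}
  have hS : ∀ i : I, 4 ≤ i.1.1 := fun i => i.2.1
  obtain ⟨c, hc⟩ := Ex.const hS m
  exact ⟨c, fun S k h3 h4 => hc ⟨(S, k), h3, h4⟩⟩

end Pool.Agent.Lib.MP_688fd0_co.SQ5.H84
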