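import Pool.Agent.Lib.MP_688fd0_co.SQ5.H84.BaseFT
import Pool.Agent.Lib.MP_688fd0_co.SQ5.H84.NumMono
import Pool.Agent.Lib.MP_688fd0_co.SQ5.H60.BaseD
import Pool.Agent.Lib.MP_688fd0_co.SQ5.FT.MnD

/-!
Type C2, threads over far bases (helper84): the base in the degenerate case (helper60's `baseT_D`) for the group `G0` with the numbers
and the layout of `nums_lay` (`m0 = 2 r + 9`, `r0 = r + 4`, widths `dD r`, `ρ = 0`, `wV = 8`).
-/

set_option autoImplicit false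

namespace Pool.Agent.Lib.MP_688fd0_co.SQ5.H84

open Function Pool.Agent.Lib.MP_688fd0_co.OSF
open Pool.Agent.Lib.MP_688fd0_co.SQ5.H64 Pool.Agent.Lib.MP_688fd0_co.SQ5.H76 Pool.Agent.Lib.MP_688fd0_co.SQ5.H95
open Pool.Agent.Lib.MP_688fd0_co.SQ5.FT Pool.Agent.Lib.MP_688fd0_co.SQ5.H24
open Pool.Agent.Lib.MP_688fd0_co.SQ3 Pool.Agent.Lib.MP_688fd0_co.SQ5.H58 Pool.Agent.Lib.MP_688fd0_co.SQ5.H49.BaseZ
open Pool.Agent.Lib.MP_688fd0_co.SQ5.H60 (mmD)

universe v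

theorem growK_mmTD : GrowK fun k => mmT k + mmD := GrowK.add growK_mmT (GrowK.const mmD)

section base

variable {Q : Type} [Group Q] [Fintype Q] {N C : Subgroup Q} {eps : Q →* ℤˣ} {k P : ℕ} {x : Fin 3 → Q} (Hx : Inv3 eps x)
  {B : Lb.{0, v} Q} {l : L3 → B.L} {t a b : Fin 3} (hta : t ≠ a) (htb : t ≠ b) (hab : a ≠ b) (ht : B.q (l .t) = x t)
  (ha : B.q (l .a) = x a) (hb : B.q (l .b) = x b)

/-- THE BASE for a group generated by the three letters, degenerate case, with the numbers `NumT`. -/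
theorem base_numD {A : Set Q} (gn : GN N C eps k P) (hk0 : 0 < k)
    (hi : ∀ i, B.inv (l i) = l i) (hq : Injective (qq B l))
    (hii : ∀ x, B.inv (B.inv x) = x) (hA : ∀ i, B.q (l i) ∈ A)
    (hd : H60.Deg (x a) (x b) (x t)) {k' cC : ℕ} (hkk : k ∣ k') (hk' : 0 < k') (hCC : Nat.card C ∣ cC)
    (hcC : 0 < cC)
    {M R r : ℕ} {D : ℤ} {n nh m TT Gr K E gap U o pd KV : ℕ}
    (hr : 1 ≤ r) (hD : 6 ≤ D) (hD4 : D % 4 = 0) (hR0 : 2 * r + 9 + 5 ≤ R) (hR : R ≤ 2 * r + 9 + 33)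
    {g : Geo (Ltc (ct eps (x a * x t)) (ct eps (x b * x t))) M R
      (dcL (2 * r + 9) (dW (dD r) (r + 4) D)) (spL (2 * r + 9)) Gr}
    (hL : Lay g k' nh m TT (2 * r + 9))
    (hn : NumT (2 * r + 9) n k' KV 4 mmD (3 * (k' * cC)) o pd nh m TT Gr K E gap U)
    (hKV : 8 * Nat.card (K0 eps) ≤ KV)
    (h0 : (2 : ℤ) ≤ r + 1) (h1 : (r : ℤ) + 10 ≤ (2 * r + 9 : ℕ)) (hp : 2 ≤ 8 * (3 * (k' * cC)))
    (hN : ∀ z : Zr g, 8 * (3 * (k' * cC)) ≤ g.rE z)
    [∀ z : Zr g, DecidableEq (SS (Hx.co hta htb hab ht ha hb).cov (mnD (by omega) (by omega) (by omega) g)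
      (r + 1) (r + 10) z)] :
    ∃ U : Q, (∀ y, eps y = 1 → y * U = U * y) ∧
      BaseT A 4 (inst (mnD (by omega) (by omega) (by omega) g) (Hx.co hta htb hab ht ha hb).cov hi hq hii
          (r + 1) (r + 10) h0 h1 (8 * (3 * (k' * cC))) hp hN)
        (VV (Hx.co hta htb hab ht ha hb).cov (mnD (by omega) (by omega) (by omega) g) (r + 1) (r + 10) (r + 2) (r + 9))
        (W2 (mnD (by omega) (by omega) (by omega) g) (Hx.co hta htb hab ht ha hb).cov (r + 1) (r + 10) (r + 5))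
        (Lam2 (mnD (by omega) (by omega) (by omega) g) (Hx.co hta htb hab ht ha hb).cov (r + 1) (r + 10) (r + 2) (r + 5)
          (r + 9)) (fun _ => U)
        (fun _ => (4 * KV ^ 2 + 1) * mmD) (fun _ => mmD) (fun _ => gap) (fun _ => ()) := by
  have hkle : k ≤ k' := Nat.le_of_dvd hk' hkk
  have hdv : k * Nat.card C ∣ 3 * (k' * cC) := (Nat.mul_dvd_mul hkk hCC).trans (Nat.dvd_mul_left _ _)
  have hle : k * Nat.card C ≤ k' * cC := Nat.mul_le_mul hkle (Nat.le_of_dvd hcC hCC)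
  have hGr : (64 : ℤ) ≤ Gr := nums_G hn.nums
  refine H60.baseT_D Hx hta htb hab ht ha hb gn hk0 hi hq hii hdv (Nat.mul_le_mul_left _ hle) hA hd _ le_rfl
    (H60.two3_hwD hD4 hD) hL (by exact_mod_cast hkk) (by exact_mod_cast hk')
    (by exact_mod_cast hn.nh4) (lay_chg hL ?_) hGr (fun k _ hk => lay_dl hL hn.nums k hk) hL.sea hKV hn.hgap ?_ h0 h1 hp hN
  · have h2 : ((4 * (2 * r + 9 + 33) + 8 : ℕ) : ℤ) ≤ (m : ℕ) := by exact_mod_cast hn.hm
    push_cast at h2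
    have h3 : (R : ℤ) ≤ 2 * r + 9 + 33 := by exact_mod_cast hR
    linarith
  · intro z
    have h2 := rE_ge g z
    have h3 : ((gap + 8 * (3 * (k' * cC)) + 1 : ℕ) : ℤ) ≤ (Gr : ℕ) := by exact_mod_cast hn.hlen
    push_cast at h3
    have h4 : ((gap + 8 * (3 * (k' * cC)) : ℕ) : ℤ) ≤ (g.rE z : ℕ) := by
      push_cast
      linarith
    exact_mod_cast h4

end base

section sub

variable {G : Type} [Group G] [Finite G] {N C : Subgroup G} {eps : G →* ℤˣ} {k P : ℕ} {G0 : Subgroup G} {x : Fin 3 → G}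
  (H : IvT eps G0 x)

variable [Fintype G0] {B0 : Lb.{0, v} G0} {l0 : L3 → B0.L} {s a' b' : Fin 3} (hsa : s ≠ a') (hsb : s ≠ b') (hab : a' ≠ b')
  (hs : B0.q (l0 .t) = x0 H s) (ha : B0.q (l0 .a) = x0 H a') (hb : B0.q (l0 .b) = x0 H b')

/-- THE BASE of `G0`, degenerate case, with the numbers and the layout of `nums_lay`. -/
theorem base_D0 (gn : GN N C eps k P) (hP : P ∣ Nat.card G0) {A0 : Set G0} (hi : ∀ i, B0.inv (l0 i) = l0 i)
    (hq : Injective (qq B0 l0)) (hii : ∀ x, B0.inv (B0.inv x) = x) (hA : ∀ i, B0.q (l0 i) ∈ A0)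
    (hd : H60.Deg (x0 H a') (x0 H b') (x0 H s))
    {M R r : ℕ} {D : ℤ} {n nh m TT Gr K E gap U o pd : ℕ}
    (hr : 1 ≤ r) (hD : 6 ≤ D) (hD4 : D % 4 = 0)
    (hR0 : 2 * r + 9 + 5 ≤ R) (hR : R ≤ 2 * r + 9 + 33) {L : AddSubgroup (ℤ × ℤ)}
    (hL : Ltc (ct (eps0 eps G0) (x0 H a' * x0 H s)) (ct (eps0 eps G0) (x0 H b' * x0 H s)) = L)
    {g : Geo L M R (dcL (2 * r + 9) (dW (dD r) (r + 4) D)) (spL (2 * r + 9)) Gr}
    (hLay : Lay g k nh m TT (2 * r + 9))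
    (hn : NumT (2 * r + 9) n k (8 * Nat.card (KH eps G0)) 4 mmD (3 * (k * Nat.card C)) o pd nh m TT Gr K E gap U)
    (h0 : (2 : ℤ) ≤ r + 1) (h1 : (r : ℤ) + 10 ≤ (2 * r + 9 : ℕ)) (hp : 2 ≤ 8 * (3 * (k * Nat.card C)))
    (hN : ∀ z : Zr g, 8 * (3 * (k * Nat.card C)) ≤ g.rE z)
    [dec : ∀ z : Zr g, DecidableEq (SS (cov0 H hsa hsb hab hs ha hb hL) (mnD (by omega) (by omega) (by omega) g)
      (r + 1) (r + 10) z)] :
    ∃ U : G0, (∀ y, eps0 eps G0 y = 1 → y * U = U * y) ∧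
      BaseT A0 4 (inst (mnD (by omega) (by omega) (by omega) g) (cov0 H hsa hsb hab hs ha hb hL) hi hq hii
          (r + 1) (r + 10) h0 h1 (8 * (3 * (k * Nat.card C))) hp hN)
        (VV (cov0 H hsa hsb hab hs ha hb hL) (mnD (by omega) (by omega) (by omega) g) (r + 1) (r + 10) (r + 2) (r + 9))
        (W2 (mnD (by omega) (by omega) (by omega) g) (cov0 H hsa hsb hab hs ha hb hL) (r + 1) (r + 10) (r + 5))
        (Lam2 (mnD (by omega) (by omega) (by omega) g) (cov0 H hsa hsb hab hs ha hb hL) (r + 1) (r + 10) (r + 2)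
          (r + 5) (r + 9)) (fun _ => U)
        (fun _ => (4 * (8 * Nat.card (KH eps G0)) ^ 2 + 1) * mmD) (fun _ => mmD) (fun _ => gap) (fun _ => ()) := by
  subst hL
  have hk : 0 < k := by
    have := gn.idx
    rw [← this]
    exact Nat.pos_of_ne_zero N.index_ne_zero_of_finite
  have hk0 : 0 < N.relIndex G0 := Nat.pos_of_ne_zero (fun h => by
    have h2 := relIndex_dvd gn G0
    rw [h, zero_dvd_iff] at h2
    omega)
  letI : ∀ z : Zr g, DecidableEq (SS ((inv3_0 H).co hsa hsb hab hs ha hb).cov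
    (mnD (by omega) (by omega) (by omega) g) (r + 1) (r + 10) z) := dec
  exact base_numD (inv3_0 H) hsa hsb hab hs ha hb (gn0 gn G0 hP) hk0 hi hq hii hA hd (relIndex_dvd gn G0) hk
    (card_C0_dvd gn G0) Nat.card_pos hr hD hD4 hR0 hR hLay hn (by rw [card_K00]) h0 h1 hp hN

end sub

end Pool.Agent.Lib.MP_688fd0_co.SQ5.H84
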