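import Mathlib
import Pool.Agent.Lib.MP_688fd0_co.SQ5.H49.Zone

/-!
MP_688fd0_co, type C2, threads over FAR bases (ftt_modules, row POSC), helper84: the number estimate.

The positions outside of the zone (helper49, `zone`) of the wide aligned strip are few: fewer than `|T| / V`, if the strip is
all but `W` columns of the torus and the events are rare.
-/

set_option autoImplicit false

namespace Pool.Agent.Lib.MP_688fd0_co.SQ5.H84

open Pool.Agent.Lib.MP_688fd0_co.SQ5.H76 Pool.Agent.Lib.MP_688fd0_co.SQ5.H49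

variable {T : Type*} [AddCommGroup T] {R : ℕ} {dc : ℕ → ℤ} {spc : ℕ → Prop} {G : ℤ}

/-- A strip is not wider than the torus. -/
theorem strip_le {L : AddSubgroup (ℤ × ℤ)} {M : ℕ} (g : Geo L M R dc spc G) {kk : ℕ} (hkk : kk + 1 < R) :
    (g.i0 + g.j0) * dc kk ≤ 2 * M := by
  have hl := g.l0_pos
  have hX := g.X0
  have h0 : ∀ j ∈ Finset.range (R - 1), 0 ≤ dc j := by
    intro j hj
    rw [Finset.mem_range] at hj
    rcases g.kind j (by omega) with h | h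
    · linarith [h.2.2.1]
    · linarith [h.2.2.2.2.1]
  have h1 : dc kk ≤ ∑ j ∈ Finset.range (R - 1), dc j :=
    Finset.single_le_sum h0 (Finset.mem_range.2 (by omega))
  have h2 := g.wide
  have h3 : (0 : ℤ) ≤ R := Int.natCast_nonneg R
  exact (mul_le_mul_of_nonneg_left (by linarith) hl.le).trans h2

/-- ROW POSC: all but a fraction `1 / V` of the positions lie in the zone. -/
theorem zone_few [Finite T] {al be : T} (g : Geo (Ltc al be) (Nat.card T) R dc spc G) {kk : ℕ} (hkk : kk + 1 < R)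
    (hsp : ¬ spc kk) {μ U W : ℤ} (hμ : 1 ≤ μ) (hU : 1 ≤ U) (hW : 0 ≤ W) {V : ℕ} (hV : 0 < V)
    (hD : 2 * (Nat.card T : ℤ) ≤ (g.i0 + g.j0) * (dc kk + W))
    (hV1 : V * ((g.i0 + g.j0) * (W + 4 * μ)) < Nat.card T)
    (hV2 : 4 * V * (g.w.Et * (2 * U - 1)) ≤ g.i0 + g.j0) :
    ∃ Bad : Finset T, (∀ τ, τ ∉ Bad → ∃ i j : ℤ, i • al + j • be = τ ∧ InZone g kk μ U i j) ∧
      V * Bad.card < Nat.card T := by
  have hl := g.l0_pos
  have hE := g.w.Et8
  have hVz : (1 : ℤ) ≤ V := by exact_mod_cast hV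
  have hev : dc kk % 2 = 0 := by
    rcases g.kind kk hkk with h | h
    · exact h.2.2.2
    · exact absurd h.1 hsp
  have hD2 := strip_le g hkk
  have hD0 : 4 * μ ≤ dc kk := by
    have h0 : 0 ≤ (g.i0 + g.j0) * (W + 4 * μ) := mul_nonneg hl.le (by linarith)
    have h1 : (g.i0 + g.j0) * (W + 4 * μ) ≤ V * ((g.i0 + g.j0) * (W + 4 * μ)) := le_mul_of_one_le_left h0 hVz
    have h2 : (g.i0 + g.j0) * (2 * (W + 4 * μ)) < (g.i0 + g.j0) * (dc kk + W) := by
      have : (g.i0 + g.j0) * (2 * (W + 4 * μ)) = 2 * ((g.i0 + g.j0) * (W + 4 * μ)) := by ring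
      linarith
    have h3 := lt_of_mul_lt_mul_left h2 hl.le
    linarith
  obtain ⟨Bad, hB, hc⟩ := zone g hkk hsp μ U hμ hU hD0
  refine ⟨Bad, hB, ?_⟩
  obtain ⟨D, hD'⟩ : ∃ D : ℤ, dc kk = 2 * D := ⟨dc kk / 2, by omega⟩
  have hdiv : dc kk / 2 = D := by omega
  rw [hdiv] at hc
  rw [hD'] at hD hD2 hD0
  set l := g.i0 + g.j0 with hl'
  set e := g.w.Et * (2 * U - 1) with he
  have he0 : 0 ≤ e := mul_nonneg (by omega) (by linarith)
  have h4 : 4 * (V : ℤ) * e * D ≤ l * D := mul_le_mul_of_nonneg_right hV2 (by linarith)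
  have h5 : 0 ≤ e * (2 * μ - 1) := mul_nonneg he0 (by linarith)
  have h6 : (Bad.card : ℤ) ≤ Nat.card T - l * (D - 2 * μ) + e * D := by
    have h7 : (l - e) * (D - 2 * μ + 1) = l * (D - 2 * μ) - e * D + e * (2 * μ - 1) + l := by ring
    linarith
  have h8 : (V : ℤ) * Bad.card ≤ V * (Nat.card T - l * (D - 2 * μ) + e * D) := mul_le_mul_of_nonneg_left h6 (by linarith)
  have h9 : (V : ℤ) * (2 * Nat.card T) ≤ V * (l * (2 * D + W)) := mul_le_mul_of_nonneg_left hD (by linarith)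
  have h10 : (V : ℤ) * Bad.card < Nat.card T := by nlinarith
  exact_mod_cast h10

/-- The same with the parameters of helper24's layout. -/
theorem zone_few' [Finite T] {al be : T} (g : Geo (Ltc al be) (Nat.card T) R dc spc G) {kk : ℕ} (hkk : kk + 1 < R)
    (hsp : ¬ spc kk) {μ U W K E E1 : ℤ} (hμ : 1 ≤ μ) (hU : 1 ≤ U) (hW : 0 ≤ W) {V : ℕ} (hV : 0 < V)
    (hD : 2 * (Nat.card T : ℤ) ≤ (g.i0 + g.j0) * (dc kk + W)) (hK : V * (W + 4 * μ) < K)
    (hlK : (g.i0 + g.j0) * K ≤ Nat.card T) (hE1 : g.w.Et ≤ E1) (hE : 4 * V * (E1 * (2 * U - 1)) ≤ E)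
    (hEl : E < g.i0 + g.j0) :
    ∃ Bad : Finset T, (∀ τ, τ ∉ Bad → ∃ i j : ℤ, i • al + j • be = τ ∧ InZone g kk μ U i j) ∧
      V * Bad.card < Nat.card T := by
  have hl := g.l0_pos
  refine zone_few g hkk hsp hμ hU hW hV hD ?_ ?_
  · have h1 : (g.i0 + g.j0) * (V * (W + 4 * μ)) < (g.i0 + g.j0) * K := mul_lt_mul_of_pos_left hK hl
    calc (V : ℤ) * ((g.i0 + g.j0) * (W + 4 * μ)) = (g.i0 + g.j0) * (V * (W + 4 * μ)) := by ring
      _ < (g.i0 + g.j0) * K := h1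
      _ ≤ Nat.card T := hlK
  · have h2 : g.w.Et * (2 * U - 1) ≤ E1 * (2 * U - 1) := mul_le_mul_of_nonneg_right hE1 (by linarith)
    have h3 : 4 * (V : ℤ) * (g.w.Et * (2 * U - 1)) ≤ 4 * V * (E1 * (2 * U - 1)) :=
      mul_le_mul_of_nonneg_left h2 (by positivity)
    linarith

end Pool.Agent.Lib.MP_688fd0_co.SQ5.H84
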