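import Pool.Agent.Lib.MP_688fd0_co.SQ5.H84.Grow
import Pool.Agent.Lib.MP_688fd0_co.SQ5.H24.LayB

/-!
Type C2, threads over far bases (helper84): the choice of all numbers. `NumT` = the list of the inequalities, `numT_exists` = the
numbers exist, `K ≤ S ^ e₁` with `e₁` absolute, `E, Gr ≤ 2 ^ (S ^ c₂)`.
-/

set_option autoImplicit false

namespace Pool.Agent.Lib.MP_688fd0_co.SQ5.H84

open Pool.Agent.Lib.MP_688fd0_co.SQ5.H24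

/-- The total width without the wide strip (`m0` strips of width at most 6 and the special strips). -/
def Wg (m0 nh kq : ℕ) : ℕ := 9 * (m0 + 33) + (58 + 8 * nh + 16 * kq)

/-- The inequalities. `m0` = number of strips of the main group, `n` = number of visits per period, `kq` = modulus of the run
lengths, `KV` = bound for the number of the active strands, `8 e` = blocks of a layer, `8 o` = unit of the visits. -/
structure NumT (m0 n kq KV cS mm e o pd nh m TT Gr K E gap U : ℕ) : Prop where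
  nums : Nums (kq : ℤ) nh m TT Gr
  hm : 4 * (m0 + 33) + 8 ≤ m
  nh4 : 4 ≤ nh
  hV : 2 * (3 * n + 1) * (Wg m0 nh kq + 8) < K
  hW : Wg m0 nh kq + 6 ≤ 2 * K
  hgap : (KV + 2) * (((cS * KV ^ 2 + 1) * mm) * (8 * e)) ≤ gap
  hlen : gap + 8 * e + 1 ≤ Gr
  hU : 8 * o * (2 * (4 ^ (40 * n ^ 2) * (30 + 5 * (gap + 2))) + 3) + gap + pd + 3 ≤ U
  hG : 8 * o * (2 * (4 ^ (40 * n ^ 2) * (30 + 5 * (gap + 2))) + 3) + gap + 3 ≤ Gr
  hE1 : (2 * K + 4 * nh + 6) * (Gr + 8 * kq + 40) ≤ E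
  hE2 : 4 * (2 * (3 * n + 1)) * ((2 * K + 4 * nh + 6) * (2 * U)) ≤ E
  hE3 : 4 * (1000 * (4 * n ^ 2 + 1) * (8 * o) * (4 ^ (40 * n ^ 2 + 1) * (30 + 5 * (gap + 2)))) + 4 ≤ E

/-! ### The explicit choice -/

def mF (m0 : ℕ) : ℕ := 4 * (m0 + 33) + 8

def nhF (m0 : ℕ) : ℕ := 3 * mF m0 + 4

def TTF (m0 kq : ℕ) : ℕ := 4 * nhF m0 + 8 * kq + 39

def KF (m0 n kq : ℕ) : ℕ := 2 * (3 * n + 1) * (Wg m0 (nhF m0) kq + 8) + Wg m0 (nhF m0) kq + 7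

def gapF (KV cS mm e : ℕ) : ℕ := (KV + 2) * (((cS * KV ^ 2 + 1) * mm) * (8 * e))

def UF (n KV cS mm e o pd : ℕ) : ℕ :=
  8 * o * (2 * (4 ^ (40 * n ^ 2) * (30 + 5 * (gapF KV cS mm e + 2))) + 3) + gapF KV cS mm e + pd + 3

def GrF (m0 n kq KV cS mm e o pd : ℕ) : ℕ :=
  309 + 32 * nhF m0 + 64 * kq + 8 * TTF m0 kq + (UF n KV cS mm e o pd + (gapF KV cS mm e + 8 * e + 1))

def EF (m0 n kq KV cS mm e o pd : ℕ) : ℕ :=
  (2 * KF m0 n kq + 4 * nhF m0 + 6) * (GrF m0 n kq KV cS mm e o pd + 8 * kq + 40) +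
    (4 * (2 * (3 * n + 1)) * ((2 * KF m0 n kq + 4 * nhF m0 + 6) * (2 * UF n KV cS mm e o pd)) +
      (4 * (1000 * (4 * n ^ 2 + 1) * (8 * o) * (4 ^ (40 * n ^ 2 + 1) * (30 + 5 * (gapF KV cS mm e + 2)))) + 4))

theorem numT_F (m0 n kq KV cS mm e o pd : ℕ) (hkq : 1 ≤ kq) :
    NumT m0 n kq KV cS mm e o pd (nhF m0) (mF m0) (TTF m0 kq) (GrF m0 n kq KV cS mm e o pd) (KF m0 n kq)
      (EF m0 n kq KV cS mm e o pd) (gapF KV cS mm e) (UF n KV cS mm e o pd) := by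
  have h0 : 8 * o * (2 * (4 ^ (40 * n ^ 2) * (30 + 5 * (gapF KV cS mm e + 2))) + 3) + gapF KV cS mm e + 3 ≤
      UF n KV cS mm e o pd := by
    unfold UF
    omega
  refine ⟨⟨?_, ?_, ?_, ?_, ?_⟩, ?_, ?_, ?_, ?_, ?_, ?_, ?_, ?_, ?_, ?_, ?_⟩
  · exact_mod_cast hkq
  · exact Int.natCast_nonneg _
  · unfold nhF
    push_cast
    omega
  · unfold TTF
    push_cast
    omega
  · unfold GrF
    push_cast
    have : (0 : ℤ) ≤ UF n KV cS mm e o pd := Int.natCast_nonneg _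
    have : (0 : ℤ) ≤ gapF KV cS mm e := Int.natCast_nonneg _
    omega
  · exact le_rfl
  · unfold nhF
    omega
  · unfold KF
    omega
  · unfold KF
    have : 0 ≤ 2 * (3 * n + 1) * (Wg m0 (nhF m0) kq + 8) := Nat.zero_le _
    omega
  · exact le_rfl
  · unfold GrF
    omega
  · exact le_rfl
  · refine h0.trans ?_
    unfold GrF
    omega
  · exact Nat.le_add_right _ _
  · exact (Nat.le_add_right _ _).trans (Nat.le_add_left _ _)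
  · exact (Nat.le_add_left _ _).trans (Nat.le_add_left _ _)

/-! ### The growth -/

section grow

variable {ι : Type*} {S m0 n kq KV cS mm e o pd : ι → ℕ} (hS : ∀ i, 4 ≤ S i)

include hS

theorem grow_nh (h0 : Po S m0) : Po S fun i => nhF (m0 i) := by
  unfold nhF mF
  exact Po.add hS (Po.mul hS (Po.const hS 3) (Po.add hS (Po.mul hS (Po.const hS 4) (Po.add hS h0 (Po.const hS 33)))
    (Po.const hS 8))) (Po.const hS 4)

theorem grow_Wg (h0 : Po S m0) (hk : Po S kq) : Po S fun i => Wg (m0 i) (nhF (m0 i)) (kq i) := by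
  unfold Wg
  exact Po.add hS (Po.mul hS (Po.const hS 9) (Po.add hS h0 (Po.const hS 33))) (Po.add hS (Po.add hS (Po.const hS 58)
    (Po.mul hS (Po.const hS 8) (grow_nh hS h0))) (Po.mul hS (Po.const hS 16) hk))

theorem grow_V (hn : Po S n) : Po S fun i => 2 * (3 * n i + 1) :=
  Po.mul hS (Po.const hS 2) (Po.add hS (Po.mul hS (Po.const hS 3) hn) (Po.const hS 1))

theorem grow_K (h0 : Po S m0) (hn : Po S n) (hk : Po S kq) : Po S fun i => KF (m0 i) (n i) (kq i) := by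
  unfold KF
  exact Po.add hS (Po.add hS (Po.mul hS (grow_V hS hn) (Po.add hS (grow_Wg hS h0 hk) (Po.const hS 8)))
    (grow_Wg hS h0 hk)) (Po.const hS 7)

theorem grow_gap (hV : Ex S KV) (hc : Ex S cS) (hm : Ex S mm) (he : Ex S e) :
    Ex S fun i => gapF (KV i) (cS i) (mm i) (e i) := by
  unfold gapF
  refine Ex.mul hS (Ex.add hS hV (Ex.const hS 2)) (Ex.mul hS (Ex.mul hS (Ex.add hS (Ex.mul hS hc ?_) (Ex.const hS 1)) hm)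
    (Ex.mul hS (Ex.const hS 8) he))
  exact Ex.pow hS hV (Po.const hS 2)

theorem grow_n2 (hn : Po S n) : Po S fun i => 40 * n i ^ 2 := Po.mul hS (Po.const hS 40) (Po.pow hS hn 2)

theorem grow_U (hn : Po S n) (hV : Ex S KV) (hc : Ex S cS) (hm : Ex S mm) (he : Ex S e) (ho : Ex S o) (hp : Ex S pd) :
    Ex S fun i => UF (n i) (KV i) (cS i) (mm i) (e i) (o i) (pd i) := by
  unfold UF
  have hg := grow_gap hS hV hc hm he
  refine Ex.add hS (Ex.add hS (Ex.add hS (Ex.mul hS (Ex.mul hS (Ex.const hS 8) ho) (Ex.add hS (Ex.mul hS (Ex.const hS 2)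
    (Ex.mul hS ?_ ?_)) (Ex.const hS 3))) hg) hp) (Ex.const hS 3)
  · exact Ex.pow hS (Ex.const hS 4) (grow_n2 hS hn)
  · exact Ex.add hS (Ex.const hS 30) (Ex.mul hS (Ex.const hS 5) (Ex.add hS hg (Ex.const hS 2)))

theorem grow_Gr (h0 : Po S m0) (hk : Po S kq) (hn : Po S n) (hV : Ex S KV) (hc : Ex S cS) (hm : Ex S mm) (he : Ex S e)
    (ho : Ex S o) (hp : Ex S pd) :
    Ex S fun i => GrF (m0 i) (n i) (kq i) (KV i) (cS i) (mm i) (e i) (o i) (pd i) := by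
  unfold GrF TTF
  have hg := grow_gap hS hV hc hm he
  have hU := grow_U hS hn hV hc hm he ho hp
  have hnh := Po.ex hS (grow_nh hS h0)
  have hkE := Po.ex hS hk
  refine Ex.add hS (Ex.add hS (Ex.add hS (Ex.add hS (Ex.const hS 309) (Ex.mul hS (Ex.const hS 32) hnh))
    (Ex.mul hS (Ex.const hS 64) hkE)) (Ex.mul hS (Ex.const hS 8) (Ex.add hS (Ex.add hS (Ex.mul hS (Ex.const hS 4) hnh)
    (Ex.mul hS (Ex.const hS 8) hkE)) (Ex.const hS 39)))) (Ex.add hS hU (Ex.add hS (Ex.add hS hg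
    (Ex.mul hS (Ex.const hS 8) he)) (Ex.const hS 1)))

theorem grow_E (h0 : Po S m0) (hk : Po S kq) (hn : Po S n) (hV : Ex S KV) (hc : Ex S cS) (hm : Ex S mm) (he : Ex S e)
    (ho : Ex S o) (hp : Ex S pd) :
    Ex S fun i => EF (m0 i) (n i) (kq i) (KV i) (cS i) (mm i) (e i) (o i) (pd i) := by
  unfold EF
  have hg := grow_gap hS hV hc hm he
  have hU := grow_U hS hn hV hc hm he ho hp
  have hG := grow_Gr hS h0 hk hn hV hc hm he ho hp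
  have hK := Po.ex hS (grow_K hS h0 hn hk)
  have hnh := Po.ex hS (grow_nh hS h0)
  have hkE := Po.ex hS hk
  have hVV := Po.ex hS (grow_V hS hn)
  have hnE := Po.ex hS hn
  have h1 := Ex.add hS (Ex.add hS (Ex.mul hS (Ex.const hS 2) hK) (Ex.mul hS (Ex.const hS 4) hnh)) (Ex.const hS 6)
  refine Ex.add hS (Ex.mul hS h1 (Ex.add hS (Ex.add hS hG (Ex.mul hS (Ex.const hS 8) hkE)) (Ex.const hS 40)))
    (Ex.add hS (Ex.mul hS (Ex.mul hS (Ex.const hS 4) hVV) (Ex.mul hS h1 (Ex.mul hS (Ex.const hS 2) hU)))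
      (Ex.add hS (Ex.mul hS (Ex.const hS 4) (Ex.mul hS (Ex.mul hS (Ex.mul hS (Ex.const hS 1000) ?_)
        (Ex.mul hS (Ex.const hS 8) ho)) (Ex.mul hS ?_ ?_))) (Ex.const hS 4)))
  · exact Ex.add hS (Ex.mul hS (Ex.const hS 4) (Po.ex hS (Po.pow hS hn 2))) (Ex.const hS 1)
  · exact Ex.pow hS (Ex.const hS 4) (Po.add hS (grow_n2 hS hn) (Po.const hS 1))
  · exact Ex.add hS (Ex.const hS 30) (Ex.mul hS (Ex.const hS 5) (Ex.add hS hg (Ex.const hS 2)))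

end grow

/-- THE NUMBERS EXIST. -/
theorem numT_exists (c : ℕ) : ∃ e₁ : ℕ, ∀ c' : ℕ, ∃ c₂ : ℕ, ∀ S m0 n kq KV cS mm e o pd : ℕ, 4 ≤ S → 1 ≤ kq →
    m0 ≤ S ^ c → n ≤ S ^ c → kq ≤ S ^ c → KV ≤ 2 ^ (S ^ c') → cS ≤ 2 ^ (S ^ c') → mm ≤ 2 ^ (S ^ c') →
    e ≤ 2 ^ (S ^ c') → o ≤ 2 ^ (S ^ c') → pd ≤ 2 ^ (S ^ c') →
    ∃ nh m TT Gr K E gap U : ℕ, NumT m0 n kq KV cS mm e o pd nh m TT Gr K E gap U ∧ nh ≤ S ^ e₁ ∧ K ≤ S ^ e₁ ∧
      Gr ≤ 2 ^ (S ^ c₂) ∧ E ≤ 2 ^ (S ^ c₂) ∧ U ≤ 2 ^ (S ^ c₂) ∧ gap ≤ 2 ^ (S ^ c₂) := by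
  -- the polynomial part
  let I1 := {q : ℕ × ℕ × ℕ × ℕ // 4 ≤ q.1 ∧ q.2.1 ≤ q.1 ^ c ∧ q.2.2.1 ≤ q.1 ^ c ∧ q.2.2.2 ≤ q.1 ^ c}
  have hS1 : ∀ i : I1, 4 ≤ i.1.1 := fun i => i.2.1
  have a1 : Po (fun i : I1 => i.1.1) fun i => i.1.2.1 := ⟨c, fun i => i.2.2.1⟩
  have a2 : Po (fun i : I1 => i.1.1) fun i => i.1.2.2.1 := ⟨c, fun i => i.2.2.2.1⟩
  have a3 : Po (fun i : I1 => i.1.1) fun i => i.1.2.2.2 := ⟨c, fun i => i.2.2.2.2⟩
  obtain ⟨e1, he1⟩ := grow_nh hS1 a1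
  obtain ⟨e2, he2⟩ := grow_K hS1 a1 a2 a3
  refine ⟨max e1 e2, fun c' => ?_⟩
  -- the exponential part
  let I2 := {q : I1 × ℕ × ℕ × ℕ × ℕ × ℕ × ℕ // q.2.1 ≤ 2 ^ (q.1.1.1 ^ c') ∧ q.2.2.1 ≤ 2 ^ (q.1.1.1 ^ c') ∧
    q.2.2.2.1 ≤ 2 ^ (q.1.1.1 ^ c') ∧ q.2.2.2.2.1 ≤ 2 ^ (q.1.1.1 ^ c') ∧ q.2.2.2.2.2.1 ≤ 2 ^ (q.1.1.1 ^ c') ∧
    q.2.2.2.2.2.2 ≤ 2 ^ (q.1.1.1 ^ c')}
  have hS2 : ∀ i : I2, 4 ≤ i.1.1.1.1 := fun i => i.1.1.2.1
  have b1 : Po (fun i : I2 => i.1.1.1.1) fun i => i.1.1.1.2.1 := ⟨c, fun i => i.1.1.2.2.1⟩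
  have b2 : Po (fun i : I2 => i.1.1.1.1) fun i => i.1.1.1.2.2.1 := ⟨c, fun i => i.1.1.2.2.2.1⟩
  have b3 : Po (fun i : I2 => i.1.1.1.1) fun i => i.1.1.1.2.2.2 := ⟨c, fun i => i.1.1.2.2.2.2⟩
  have d1 : Ex (fun i : I2 => i.1.1.1.1) fun i => i.1.2.1 := ⟨c', fun i => i.2.1⟩
  have d2 : Ex (fun i : I2 => i.1.1.1.1) fun i => i.1.2.2.1 := ⟨c', fun i => i.2.2.1⟩
  have d3 : Ex (fun i : I2 => i.1.1.1.1) fun i => i.1.2.2.2.1 := ⟨c', fun i => i.2.2.2.1⟩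
  have d4 : Ex (fun i : I2 => i.1.1.1.1) fun i => i.1.2.2.2.2.1 := ⟨c', fun i => i.2.2.2.2.1⟩
  have d5 : Ex (fun i : I2 => i.1.1.1.1) fun i => i.1.2.2.2.2.2.1 := ⟨c', fun i => i.2.2.2.2.2.1⟩
  have d6 : Ex (fun i : I2 => i.1.1.1.1) fun i => i.1.2.2.2.2.2.2 := ⟨c', fun i => i.2.2.2.2.2.2⟩
  obtain ⟨u1, hu1⟩ := grow_Gr hS2 b1 b3 b2 d1 d2 d3 d4 d5 d6
  obtain ⟨u2, hu2⟩ := grow_E hS2 b1 b3 b2 d1 d2 d3 d4 d5 d6
  obtain ⟨u3, hu3⟩ := grow_U hS2 b2 d1 d2 d3 d4 d5 d6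
  obtain ⟨u4, hu4⟩ := grow_gap hS2 d1 d2 d3 d4
  refine ⟨max (max u1 u2) (max u3 u4), ?_⟩
  intro S m0 n kq KV cS mm e o pd hS hkq h1 h2 h3 h4 h5 h6 h7 h8 h9
  have hmax : ∀ {x u : ℕ}, x ≤ 2 ^ (S ^ u) → u ≤ max (max u1 u2) (max u3 u4) →
      x ≤ 2 ^ (S ^ max (max u1 u2) (max u3 u4)) := fun hx hu =>
    hx.trans (Nat.pow_le_pow_right (by norm_num) (Nat.pow_le_pow_right (by omega) hu))
  refine ⟨_, _, _, _, _, _, _, _, numT_F m0 n kq KV cS mm e o pd hkq, ?_, ?_, ?_, ?_, ?_, ?_⟩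
  · exact (he1 ⟨(S, m0, n, kq), hS, h1, h2, h3⟩).trans (Nat.pow_le_pow_right (by show 0 < S; omega) (le_max_left _ _))
  · exact (he2 ⟨(S, m0, n, kq), hS, h1, h2, h3⟩).trans (Nat.pow_le_pow_right (by show 0 < S; omega) (le_max_right _ _))
  · exact hmax (hu1 ⟨(⟨(S, m0, n, kq), hS, h1, h2, h3⟩, KV, cS, mm, e, o, pd), h4, h5, h6, h7, h8, h9⟩)
      ((le_max_left _ _).trans (le_max_left _ _))
  · exact hmax (hu2 ⟨(⟨(S, m0, n, kq), hS, h1, h2, h3⟩, KV, cS, mm, e, o, pd), h4, h5, h6, h7, h8, h9⟩)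
      ((le_max_right _ _).trans (le_max_left _ _))
  · exact hmax (hu3 ⟨(⟨(S, m0, n, kq), hS, h1, h2, h3⟩, KV, cS, mm, e, o, pd), h4, h5, h6, h7, h8, h9⟩)
      ((le_max_left _ _).trans (le_max_right _ _))
  · exact hmax (hu4 ⟨(⟨(S, m0, n, kq), hS, h1, h2, h3⟩, KV, cS, mm, e, o, pd), h4, h5, h6, h7, h8, h9⟩)
      ((le_max_right _ _).trans (le_max_right _ _))

end Pool.Agent.Lib.MP_688fd0_co.SQ5.H84
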