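import Pool.Agent.Lib.MP_688fd0_co.SQ5.H95.FarB
import Pool.Agent.Lib.MP_688fd0_co.SQ5.H58.NumLayT

/-!
Type C2, threads over far bases (helper84): the main group of the layout with a wide strip (`exists_layT`), and the consequences of
`Lay` in the form which is used by the rows.
-/

set_option autoImplicit false

namespace Pool.Agent.Lib.MP_688fd0_co.SQ5.H84

open Pool.Agent.Lib.MP_688fd0_co.SQ5.H76 Pool.Agent.Lib.MP_688fd0_co.SQ5.H24

/-- Half widths of the main group `4 ^ r, 6, 4 ^ (w - 1), D, 4 ^ (w - 1), 6, 4 ^ r`. -/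
def hwT (r w : ℕ) (D K : ℤ) : ℕ := if K = r + w then (D / 2).toNat else if K = r ∨ K = r + 2 * w then 3 else 2

theorem hwT_wide (r w : ℕ) (D : ℤ) : hwT r w D (r + w) = (D / 2).toNat := if_pos rfl

theorem hwT_three {r w : ℕ} {D K : ℤ} (h0 : K ≠ r + w) (h : K = r ∨ K = r + 2 * w) : hwT r w D K = 3 := by
  unfold hwT
  rw [if_neg h0, if_pos h]

theorem hwT_two {r w : ℕ} {D K : ℤ} (h0 : K ≠ r + w) (h1 : K ≠ r) (h2 : K ≠ r + 2 * w) : hwT r w D K = 2 := by
  unfold hwT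
  rw [if_neg h0, if_neg (by rintro (h | h) <;> contradiction)]

/-- The strips inside of the group `C'` (walls `r + 1, .., r + w`). -/
theorem hwT_in1 {r w : ℕ} {D K : ℤ} (h1 : (r : ℤ) < K) (h2 : K < r + w) : hwT r w D K = 2 :=
  hwT_two (by omega) (by omega) (by omega)

/-- The strips inside of the group `C` (walls `r + w + 1, .., r + 2 w`). -/
theorem hwT_in2 {r w : ℕ} {D K : ℤ} (h1 : (r : ℤ) + w < K) (h2 : K < r + 2 * w) : hwT r w D K = 2 :=
  hwT_two (by omega) (by omega) (by omega)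

theorem hwT_left {r w : ℕ} (hw : 1 ≤ w) (D : ℤ) : hwT r w D r = 3 := hwT_three (by omega) (Or.inl rfl)

theorem hwT_right {r w : ℕ} (hw : 1 ≤ w) (D : ℤ) : hwT r w D (r + 2 * w) = 3 := hwT_three (by omega) (Or.inr rfl)

theorem hwT_pos (r w : ℕ) {D : ℤ} (hD : 2 ≤ D) (K : ℤ) : 1 ≤ hwT r w D K := by
  unfold hwT
  split_ifs
  · omega
  · norm_num
  · norm_num

/-- The half width of the wide strip. -/
theorem hwT_wide_eq (r w : ℕ) {D : ℤ} (hD : 2 ≤ D) (hD2 : D % 2 = 0) : 2 * (hwT r w D (r + w) : ℤ) = D := by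
  rw [hwT_wide]
  omega

/-- The half width of the wide strip is odd and at least 3. -/
theorem hwT_wide_odd (r w : ℕ) {D : ℤ} (hD : 6 ≤ D) (hD4 : D % 4 = 2) : hwT r w D (r + w) % 2 = 1 ∧ 3 ≤ hwT r w D (r + w) := by
  rw [hwT_wide]
  omega

/-- THE MAIN GROUP of the layout with a wide strip. -/
theorem mnT {L : AddSubgroup (ℤ × ℤ)} {M R r w : ℕ} {D Gr : ℤ} (hR : 2 * r + 2 * w + 6 ≤ R) (hD : 2 ≤ D) (hD2 : D % 2 = 0)
    (g : Geo L M R (dcL (2 * r + 2 * w + 1) (dW (dB r (2 * w)) (r + w) D)) (spL (2 * r + 2 * w + 1)) Gr) :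
    Geo.Mn g (2 * r + 2 * w + 1) (hwT r w D) where
  lt := by omega
  al k hk h := by
    have := h.1
    omega
  dc k hk := by
    rw [dcL_al (fun h => by have := h.1; omega)]
    unfold dW dB hwT
    by_cases h0 : k = r + w
    · subst h0
      rw [if_pos rfl, if_pos (by push_cast; ring)]
      omega
    · rw [if_neg h0, if_neg (show ¬ ((k : ℤ) = r + w) by omega)]
      by_cases h1 : k = r ∨ k = r + 2 * w
      · rw [if_pos h1, if_pos (show (k : ℤ) = r ∨ (k : ℤ) = r + 2 * w by omega)]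
        norm_num
      · rw [if_neg h1, if_neg (show ¬ ((k : ℤ) = r ∨ (k : ℤ) = r + 2 * w) by omega)]
        norm_num
  pos := hwT_pos r w hD

section lay

variable {L : AddSubgroup (ℤ × ℤ)} {M R : ℕ} {dc : ℕ → ℤ} {spc : ℕ → Prop} {G : ℤ} {g : Geo L M R dc spc G}
  {kq h m TT : ℤ} {ks : ℕ}

/-- The changes of type. -/
theorem lay_chg (hL : Lay g kq h m TT ks) (hm : 4 * (R : ℤ) + 8 ≤ m) : H66.Chg g := H66.chg_of_str g hL.str hm

/-- The run length is large. -/
theorem nums_G (hn : Nums kq h m TT G) : 64 ≤ G := by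
  obtain ⟨h1, h2, h3, h4, h5⟩ := hn
  omega

theorem nums_TT (hn : Nums kq h m TT G) : 0 ≤ TT := by
  obtain ⟨h1, h2, h3, h4, h5⟩ := hn
  omega

/-- The level differences of the special strips. -/
theorem lay_dl (hL : Lay g kq h m TT ks) (hn : Nums kq h m TT G) (k : ℕ) (hk : spc k) : g.dl k + 20 ≤ G := by
  obtain ⟨h1, h2, h3, h4, h5⟩ := hn
  by_cases h6 : k = ks
  · rw [h6]
    rcases hL.dls with h7 | h7 <;> rw [h7] <;> omega
  · rw [hL.dl3 k hk h6]
    omega

/-- The number of levels of a run. -/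
theorem rE_ge (g : Geo L M R dc spc G) (z : ℤ) : G - 1 ≤ g.rE z := by
  have h1 := g.w.he (z - 1)
  rw [sub_add_cancel] at h1
  rw [g.rE_eq]
  omega

end lay

end Pool.Agent.Lib.MP_688fd0_co.SQ5.H84
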