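import Pool.Agent.Lib.MP_688fd0_co.SQ5.H58.ThrB

/-!
Type C2, threads over far bases (helper84): the group `G0` (generated by the three letters) as a group of its own: sign, abelian
quotient, lattice, fibre, and the structure `GN`.
-/

set_option autoImplicit false

namespace Pool.Agent.Lib.MP_688fd0_co.SQ5.H84

open Pool.Agent.Lib.MP_688fd0_co.OSF Pool.Agent.Lib.MP_688fd0_co.SQ5.H66 Pool.Agent.Lib.MP_688fd0_co.SQ5.H76
open Pool.Agent.Lib.MP_688fd0_co.SQ3 Pool.Agent.Lib.MP_688fd0_co.SQ5.H58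

universe u

section ab

variable {Q : Type u} [Group Q] (eps : Q →* ℤˣ) (G0 : Subgroup Q)

/-- The sign on the subgroup. -/
def eps0 : G0 →* ℤˣ := eps.comp G0.subtype

theorem eps0_apply (g : G0) : eps0 eps G0 g = eps g := rfl

/-- The kernels. -/
def kerE : (eps0 eps G0).ker ≃* G0.subgroupOf eps.ker where
  toFun x := ⟨⟨(x : G0), x.2⟩, (x : G0).2⟩
  invFun y := ⟨⟨(y : eps.ker), y.2⟩, (y : eps.ker).2⟩
  left_inv _ := rfl
  right_inv _ := rfl
  map_mul' _ _ := rfl

/-- The abelian quotients. -/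
noncomputable def ThE : Tt (eps0 eps G0) ≃+ Th eps G0 := MulEquiv.toAdditive (kerE eps G0).abelianizationCongr

theorem ThE_ct (g : G0) : ThE eps G0 (ct (eps0 eps G0) g) = cth eps G0 g := by
  by_cases h : eps g = 1
  · rw [ct_of (show eps0 eps G0 g = 1 from h), cth_of h g.2]
    rfl
  · have h1 : ct (eps0 eps G0) g = 0 := dif_neg h
    have h2 : cth eps G0 (g : Q) = 0 := dif_neg (fun h3 => h h3.1)
    rw [h1, h2, map_zero]

theorem card_Tt0 : Nat.card (Tt (eps0 eps G0)) = Nat.card (Th eps G0) := Nat.card_congr (ThE eps G0).toEquiv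

/-- The lattices are equal. -/
theorem Ltc_congr {T T' : Type*} [AddCommGroup T] [AddCommGroup T'] (E : T ≃+ T') (al be : T) :
    Ltc (E al) (E be) = Ltc al be := by
  ext ⟨i, j⟩
  rw [mem_Ltc, mem_Ltc]
  constructor
  · intro h
    apply E.injective
    rw [map_add, map_zsmul, map_zsmul, h, map_zero]
  · intro h
    rw [← map_zsmul, ← map_zsmul, ← map_add, h, map_zero]

theorem Ltc_eq (g g' : G0) :
    Ltc (ct (eps0 eps G0) g) (ct (eps0 eps G0) g') = Ltc (cth eps G0 (g : Q)) (cth eps G0 (g' : Q)) := by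
  rw [← ThE_ct, ← ThE_ct, Ltc_congr]

/-- The fibres. -/
theorem mem_K00 {g : G0} : g ∈ K0 (eps0 eps G0) ↔ (g : Q) ∈ KH eps G0 := by
  rw [mem_K0, mem_KH, ← ThE_ct]
  constructor
  · rintro ⟨h1, h2⟩
    exact ⟨h1, g.2, by rw [h2, map_zero]⟩
  · rintro ⟨h1, -, h2⟩
    exact ⟨h1, (ThE eps G0).injective (h2.trans (map_zero _).symm)⟩

theorem map_K00 : (K0 (eps0 eps G0)).map G0.subtype = KH eps G0 := by
  ext g
  constructor
  · rintro ⟨y, hy, rfl⟩
    exact (mem_K00 eps G0).1 hy
  · intro hg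
    exact ⟨⟨g, KH_le hg⟩, (mem_K00 eps G0).2 hg, rfl⟩

theorem card_K00 : Nat.card (K0 (eps0 eps G0)) = Nat.card (KH eps G0) := by
  rw [← map_K00]
  exact (Nat.card_congr (Subgroup.equivMapOfInjective _ _ (Subgroup.subtype_injective _)).toEquiv)

variable {eps G0}

/-- The three letters in the group `G0`. -/
def x0 {x : Fin 3 → Q} (H : IvT eps G0 x) (i : Fin 3) : G0 := ⟨x i, H.mem i⟩

theorem x0_coe {x : Fin 3 → Q} (H : IvT eps G0 x) (i : Fin 3) : (x0 H i : Q) = x i := rfl

theorem inv3_0 {x : Fin 3 → Q} (H : IvT eps G0 x) : Inv3 (eps0 eps G0) (x0 H) where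
  neg i := H.neg i
  inv i := Subtype.ext (H.inv i)
  gen := by
    have h1 : (Subgroup.closure (Set.range (x0 H))).map G0.subtype = Subgroup.closure (Set.range x) := by
      rw [MonoidHom.map_closure, ← Set.range_comp]
      rfl
    rw [eq_top_iff]
    intro y _
    have h2 : (y : Q) ∈ (Subgroup.closure (Set.range (x0 H))).map G0.subtype := by
      rw [h1]
      exact H.gen y.2
    obtain ⟨z, hz, e⟩ := h2
    have : z = y := Subtype.ext e
    rwa [this] at hz

end ab

section gn

open SQ2.H41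

variable {G : Type u} [Group G] [Finite G] {N C : Subgroup G} {eps : G →* ℤˣ} {k P : ℕ}

/-- The subgroup `C` of the group `G0`. -/
def C0 (N : Subgroup G) (eps : G →* ℤˣ) (G0 : Subgroup G) : Subgroup G0 := relc (N.subgroupOf G0) (eps0 eps G0)

theorem C0_le (h : GN N C eps k P) (G0 : Subgroup G) : C0 N eps G0 ≤ C.subgroupOf G0 := by
  unfold C0 relc
  rw [Subgroup.closure_le]
  rintro y ⟨n, hn, g, rfl⟩
  exact h.act (n : G) hn (g : G)

omit [Finite G] in
theorem card_sub_dvd (K G0 : Subgroup G) : Nat.card (K.subgroupOf G0) ∣ Nat.card K := by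
  have h1 : Nat.card (K.subgroupOf G0) = Nat.card (K ⊓ G0 : Subgroup G) := by
    rw [← Subgroup.subgroupOf_map_subtype]
    exact Nat.card_congr (Subgroup.equivMapOfInjective _ _ (Subgroup.subtype_injective _)).toEquiv
  rw [h1]
  exact Subgroup.card_dvd_of_le inf_le_left

theorem card_C0_dvd (h : GN N C eps k P) (G0 : Subgroup G) : Nat.card (C0 N eps G0) ∣ Nat.card C :=
  (Subgroup.card_dvd_of_le (C0_le h G0)).trans (card_sub_dvd C G0)

omit [Finite G] in
theorem relIndex_dvd (h : GN N C eps k P) (G0 : Subgroup G) : N.relIndex G0 ∣ k := by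
  have := h.Nn
  rw [← h.idx]
  exact Subgroup.relIndex_dvd_index_of_normal N G0

/-- THE STRUCTURE of `G0`. -/
theorem gn0 (h : GN N C eps k P) (G0 : Subgroup G) (hP : P ∣ Nat.card G0) :
    GN (N.subgroupOf G0) (C0 N eps G0) (eps0 eps G0) (N.relIndex G0) P := by
  have hNn := h.Nn
  have hNc := h.Nc
  have hn0 : (N.subgroupOf G0).Normal := inferInstance
  have hc0 : IsCyclic (N.subgroupOf G0) := by
    let f : N.subgroupOf G0 →* N := ((G0.subtype).comp (N.subgroupOf G0).subtype).codRestrict N fun y => y.2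
    refine isCyclic_of_injective f ?_
    intro y y' hy
    have := congrArg (Subtype.val) hy
    exact Subtype.ext (Subtype.ext this)
  have hd0 : Nat.card (N.subgroupOf G0) ∣ Nat.card N := card_sub_dvd N G0
  have hsq0 : Squarefree (Nat.card (N.subgroupOf G0)) := h.Nsq.squarefree_of_dvd hd0
  have hk0 : N.relIndex G0 ∣ k := relIndex_dvd h G0
  have hG0 : Nat.card G0 ∣ Nat.card G := Subgroup.card_subgroup_dvd_card G0
  have hCN : C0 N eps G0 ≤ N.subgroupOf G0 := relc_le _ hn0 _
  have hCn : (C0 N eps G0).Normal := by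
    refine ⟨fun x hx g => ?_⟩
    have h1 : (Subgroup.zpowers x).Normal := zpowers_normal _ hn0 hc0 (hCN hx)
    exact (Subgroup.zpowers_le.2 hx) (h1.conj_mem x (Subgroup.mem_zpowers x) g)
  have hcop : (Nat.card (N.subgroupOf G0)).Coprime (N.relIndex G0) :=
    (h.cop.coprime_dvd_left hd0).coprime_dvd_right hk0
  have hk1 : 0 < k := by
    rw [← h.idx]
    exact Nat.pos_of_ne_zero N.index_ne_zero_of_finite
  have hcard : Nat.card (N.subgroupOf G0) * N.relIndex G0 = Nat.card G0 := (N.subgroupOf G0).card_mul_index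
  have hkle : N.relIndex G0 ≤ k := Nat.le_of_dvd hk1 hk0
  refine { Nn := hn0, Nc := hc0, Nsq := hsq0, CN := hCN, Cn := hCn, act := ?_, eN := ?_, idx := rfl, cop := hcop,
           Ccop := ?_, nact := ?_, prime := h.prime, dvd := ?_, ndvd := ?_, sq := ?_, big := ?_, marg := ?_ }
  · intro n hn g
    exact Subgroup.subset_closure ⟨n, hn, g, rfl⟩
  · intro n hn
    exact h.eN (n : G) hn
  · -- the index of `C0`
    obtain ⟨m', hm'⟩ := Subgroup.card_dvd_of_le hCN
    have hcopm : (Nat.card (C0 N eps G0)).Coprime m' := by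
      have := hsq0
      rw [hm'] at this
      exact Nat.coprime_of_squarefree_mul this
    have hCindex : (C0 N eps G0).index = N.relIndex G0 * m' := by
      have h1 := (C0 N eps G0).card_mul_index
      refine Nat.eq_of_mul_eq_mul_left (Nat.card_pos (α := C0 N eps G0)) ?_
      rw [h1, ← hcard]
      rw [hm']
      ring
    rw [hCindex]
    exact Nat.Coprime.mul_right (hcop.coprime_dvd_left (Subgroup.card_dvd_of_le hCN)) hcopm
  · intro c hc hact
    by_contra hne
    have hx1 : orderOf c ≠ 1 := fun h => hne (orderOf_eq_one_iff.1 h)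
    obtain ⟨p, hpp, hpd⟩ := Nat.exists_prime_and_dvd hx1
    obtain ⟨s, hs⟩ := hpd
    have hox : orderOf c ∣ Nat.card (C0 N eps G0) := by
      have := orderOf_dvd_natCard (⟨c, hc⟩ : C0 N eps G0)
      rwa [Subgroup.orderOf_mk] at this
    have hs0 : s ≠ 0 := by
      rintro rfl
      have := orderOf_pos c
      omega
    have hpow : orderOf (c ^ s) = p := by
      rw [orderOf_pow_of_dvd hs0 ⟨p, by rw [hs, mul_comm]⟩, hs]
      exact Nat.mul_div_cancel _ (Nat.pos_of_ne_zero hs0)
    refine relc_key (N.subgroupOf G0) hn0 hc0 hsq0 (eps0 eps G0) hpp ((N.subgroupOf G0).pow_mem (hCN hc) s) hpow ?_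
      ((Dvd.intro s hs.symm).trans hox)
    intro g
    rw [← conj_pow, hact g, ← zpow_natCast (c ^ _) s, ← zpow_natCast c s, ← zpow_mul, ← zpow_mul, mul_comm]
  · rw [← hcard] at hP
    rcases (h.prime.dvd_mul).1 hP with h1 | h1
    · exact h1
    · exfalso
      have h2 : P ∣ Nat.gcd (Nat.card N) k := Nat.dvd_gcd h.dvd (h1.trans hk0)
      rw [h.cop] at h2
      exact h.prime.one_lt.ne' (Nat.dvd_one.1 h2)
  · exact fun h1 => h.ndvd (h1.trans (card_C0_dvd h G0))
  · exact fun h1 => h.sq (h1.trans hG0)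
  · intro p hp
    have hp' := Nat.primeFactors_mono hd0 Nat.card_pos.ne' hp
    refine ⟨lt_of_le_of_lt (Nat.mul_le_mul_left 4 hkle) (h.big p hp').1, fun q hq => ?_⟩
    exact (h.big p hp').2 q (Nat.primeFactors_mono hG0 Nat.card_pos.ne' hq)
  · intro p hp
    have hp' := Nat.primeFactors_mono hd0 Nat.card_pos.ne' hp
    refine lt_of_le_of_lt (Nat.pow_le_pow_left ?_ 10) (h.marg p hp')
    have := length_le hG0 Nat.card_pos.ne'
    omega

end gn

section inv

variable {G : Type} [Group G] [Finite G] {N C : Subgroup G} {eps : G →* ℤˣ} {k P : ℕ} {A : Set G} {a t b : G} {c₁ : ℕ}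

theorem dvd_G0 (h : SQD.Inv N C eps k P A c₁ a t b) : P ∣ Nat.card (Subgroup.closure ({a, t, b} : Set G)) := by
  have h1 := orderOf_dvd_natCard (⟨a * t, (ivT h).mem2 0 1⟩ : Subgroup.closure ({a, t, b} : Set G))
  rw [Subgroup.orderOf_mk] at h1
  exact h.hat.trans h1

/-- The structure of the group generated by the three letters. -/
theorem gnT (h : SQD.Inv N C eps k P A c₁ a t b) :
    GN (N.subgroupOf (Subgroup.closure {a, t, b})) (C0 N eps (Subgroup.closure {a, t, b}))
      (eps0 eps (Subgroup.closure {a, t, b})) (N.relIndex (Subgroup.closure {a, t, b})) P :=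
  gn0 h.gn _ (dvd_G0 h)

end inv

end Pool.Agent.Lib.MP_688fd0_co.SQ5.H84
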