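import Pool.Agent.Lib.MP_688fd0_co.SQ5.H84.NumLay
import Pool.Agent.Lib.MP_688fd0_co.SQ5.H84.MnT
import Pool.Agent.Lib.MP_688fd0_co.SQ5.H84.Sub0
import Pool.Agent.Lib.MP_688fd0_co.SQ5.H49.BaseP
import Pool.Agent.Lib.MP_688fd0_co.SQ5.FT.Split

/-!
Type C2, threads over far bases (helper84): the base (helper49's `baseT_full`) for the group `G0` with the numbers and the layout of
`nums_lay`.
-/

set_option autoImplicit false

namespace Pool.Agent.Lib.MP_688fd0_co.SQ5.H84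

open Function Pool.Agent.Lib.MP_688fd0_co.OSF
open Pool.Agent.Lib.MP_688fd0_co.SQ5.H64 Pool.Agent.Lib.MP_688fd0_co.SQ5.H76 Pool.Agent.Lib.MP_688fd0_co.SQ5.H95
open Pool.Agent.Lib.MP_688fd0_co.SQ5.FT Pool.Agent.Lib.MP_688fd0_co.SQ5.H24
open Pool.Agent.Lib.MP_688fd0_co.SQ3 Pool.Agent.Lib.MP_688fd0_co.SQ5.H58 Pool.Agent.Lib.MP_688fd0_co.SQ5.H49.BaseZ

universe v

/-- The number of layers grows moderately. -/
theorem growK_mmT : GrowK mmT := by
  refine growK_fact (p := fun k => 144 * k * (8 * k + 1)) (q := fun k => 48 * k) (a := 8) (b := 4) ?_ ?_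
  · intro S k hS hk
    have h1 : 144 * k * (8 * k + 1) ≤ 144 * S * (8 * S + 1) :=
      Nat.mul_le_mul (Nat.mul_le_mul_left _ hk) (by omega)
    have h2 : 144 * S * (8 * S + 1) ≤ 1296 * S ^ 2 := by nlinarith
    have h3 : 1296 ≤ S ^ 6 := by
      calc 1296 ≤ 4 ^ 6 := by norm_num
        _ ≤ S ^ 6 := Nat.pow_le_pow_left hS 6
    calc 144 * k * (8 * k + 1) ≤ 1296 * S ^ 2 := h1.trans h2
      _ ≤ S ^ 6 * S ^ 2 := Nat.mul_le_mul_right _ h3
      _ = S ^ 8 := by rw [← pow_add]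
  · intro S k hS hk
    have h3 : 48 ≤ S ^ 3 := by
      calc 48 ≤ 4 ^ 3 := by norm_num
        _ ≤ S ^ 3 := Nat.pow_le_pow_left hS 3
    calc 48 * k ≤ S ^ 3 * S := Nat.mul_le_mul h3 hk
      _ = S ^ 4 := (pow_succ _ _).symm

theorem mmT_mono {k k' : ℕ} (h : k ≤ k') : mmT k ≤ mmT k' := by
  unfold mmT
  refine Nat.mul_le_mul (Nat.factorial_le (Nat.mul_le_mul (Nat.mul_le_mul_left _ h) (by omega))) (by omega)

/-- The two windows of the layout with a wide strip. -/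
theorem twoT {r w : ℕ} (hw : 5 ≤ w) {D : ℤ} (hD : 6 ≤ D) (hD4 : D % 4 = 2) : Two (hwT r w D) r w where
  r0 := Int.natCast_nonneg r
  w5 := by exact_mod_cast hw
  lo := hwT_left (by omega) D
  up := hwT_right (by omega) D
  mid := (hwT_wide_odd r w hD hD4).1
  m0 K h1 h2 := hwT_in1 h1 h2
  m1 K h1 h2 := hwT_in2 h1 h2

theorem hwT_ge_two (r w : ℕ) {D : ℤ} (hD : 6 ≤ D) (K : ℤ) : 2 ≤ hwT r w D K := by
  unfold hwT
  split_ifs
  · omega
  · norm_num
  · norm_num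

section base

variable {Q : Type} [Group Q] [Fintype Q] {N C : Subgroup Q} {eps : Q →* ℤˣ} {k P : ℕ} {x : Fin 3 → Q} (Hx : Inv3 eps x)
  {B : Lb.{0, v} Q} {l : L3 → B.L} {t a b : Fin 3} (hta : t ≠ a) (htb : t ≠ b) (hab : a ≠ b) (ht : B.q (l .t) = x t)
  (ha : B.q (l .a) = x a) (hb : B.q (l .b) = x b)

/-- THE BASE for a group generated by the three letters, with the numbers `NumT` (which may be computed from larger `k'`, `C'`). -/
theorem base_num {A : Set Q} (gn : GN N C eps k P) (hk0 : 0 < k)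
    (hi : ∀ i, B.inv (l i) = l i) (hq : Injective (qq B l))
    (hii : ∀ x, B.inv (B.inv x) = x) (hA : ∀ i, B.q (l i) ∈ A)
    (hnc : H59.NCen eps ((x a * x b) * (x a * x b))) {k' cC : ℕ} (hkk : k ∣ k') (hk' : 0 < k') (hCC : Nat.card C ∣ cC)
    (hcC : 0 < cC)
    {M R r w : ℕ} {D : ℤ} {n nh m TT Gr K E gap U o pd KV : ℕ}
    (hr : 1 ≤ r) (hwk : k' + 2 ≤ w) (hw5 : 5 ≤ w) (hD : 6 ≤ D) (hD4 : D % 4 = 2) (hgood : goodT x t a b D)
    (hR0 : 2 * r + 2 * w + 1 + 5 ≤ R) (hR : R ≤ 2 * r + 2 * w + 1 + 33)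
    {g : Geo (Ltc (ct eps (x a * x t)) (ct eps (x b * x t))) M R
      (dcL (2 * r + 2 * w + 1) (dW (dB r (2 * w)) (r + w) D)) (spL (2 * r + 2 * w + 1)) Gr}
    (hL : Lay g k' nh m TT (2 * r + 2 * w + 1))
    (hn : NumT (2 * r + 2 * w + 1) n k' KV 4 (mmT k') (3 * (k' * cC)) o pd nh m TT Gr K E gap U)
    (hKV : 2 * w * Nat.card (K0 eps) ≤ KV)
    (h0 : (2 : ℤ) ≤ r + 1) (h1 : (r : ℤ) + 2 * w + 2 ≤ (2 * r + 2 * w + 1 : ℕ)) (hp : 2 ≤ 8 * (3 * (k' * cC)))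
    (hN : ∀ z : Zr g, 8 * (3 * (k' * cC)) ≤ g.rE z)
    [∀ z : Zr g, DecidableEq (SS (Hx.co hta htb hab ht ha hb).cov (mnT (by omega) (by omega) (by omega) g)
      (r + 1) (r + 2 * w + 2) z)] :
    ∃ U : Q, (∀ y, eps y = 1 → y * U = U * y) ∧
      BaseT A 4 (inst (mnT (by omega) (by omega) (by omega) g) (Hx.co hta htb hab ht ha hb).cov hi hq hii
          (r + 1) (r + 2 * w + 2) h0 h1 (8 * (3 * (k' * cC))) hp hN)
        (VV (Hx.co hta htb hab ht ha hb).cov (mnT (by omega) (by omega) (by omega) g)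
          (r + 1) (r + 2 * w + 2) (r + 2) (r + 2 * w + 1))
        (W2 (mnT (by omega) (by omega) (by omega) g) (Hx.co hta htb hab ht ha hb).cov (r + 1) (r + 2 * w + 2) (r + w + 1))
        (Lam2 (mnT (by omega) (by omega) (by omega) g) (Hx.co hta htb hab ht ha hb).cov (r + 1) (r + 2 * w + 2) (r + 2)
          (r + w + 1) (r + 2 * w + 1)) (fun _ => U)
        (fun _ => (4 * KV ^ 2 + 1) * mmT k) (fun _ => mmT k) (fun _ => gap) (fun _ => ()) := by
  have hkle : k ≤ k' := Nat.le_of_dvd hk' hkk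
  have hdv : k * Nat.card C ∣ 3 * (k' * cC) := (Nat.mul_dvd_mul hkk hCC).trans (Nat.dvd_mul_left _ _)
  have h2t := ncen_at Hx hta htb hab hnc
  have hle : k * Nat.card C ≤ k' * cC := Nat.mul_le_mul hkle (Nat.le_of_dvd hcC hCC)
  have hGr : (64 : ℤ) ≤ Gr := nums_G hn.nums
  refine baseT_full Hx hta htb hab ht ha hb gn hk0 hi hq hii hA hdv (Nat.mul_le_mul_left _ hle) ?_ _ (by omega) hw5
    le_rfl (twoT hw5 hD hD4) (hwT_ge_two r w hD) ?_ hL (by exact_mod_cast hkk) (by exact_mod_cast hk')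
    (by exact_mod_cast hn.nh4) (lay_chg hL ?_) hGr (fun k _ hk => lay_dl hL hn.nums k hk) hL.sea hKV ?_ ?_ h0 h1 hp hN
  · -- the square is not inverted
    rw [ht, ha, hb]
    intro h
    apply ne_sea Hx h2t (n := 3) (Or.inr rfl)
    rw [show 3 - 1 = 2 from rfl]
    obtain ⟨s, hs⟩ : ∃ s, s = (x a * x b) ^ 2 := ⟨_, rfl⟩
    rw [← hs] at h ⊢
    calc (s * x t) ^ 2 = s * (x t * s * x t) := by rw [pow_two]; group
      _ = 1 := by rw [h, mul_inv_cancel]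
  · intro K
    right; right
    rw [ht, ha, hb]
    exact good_all Hx h2t hD hgood r w K
  · have h2 : ((4 * (2 * r + 2 * w + 1 + 33) + 8 : ℕ) : ℤ) ≤ (m : ℕ) := by exact_mod_cast hn.hm
    push_cast at h2
    have h3 : (R : ℤ) ≤ 2 * r + 2 * w + 1 + 33 := by exact_mod_cast hR
    linarith
  · refine le_trans ?_ hn.hgap
    exact Nat.mul_le_mul_left _ (Nat.mul_le_mul_right _ (Nat.mul_le_mul_left _ (mmT_mono hkle)))
  · intro z
    have h2 := rE_ge g z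
    have h3 : ((gap + 8 * (3 * (k' * cC)) + 1 : ℕ) : ℤ) ≤ (Gr : ℕ) := by exact_mod_cast hn.hlen
    push_cast at h3
    have h4 : ((gap + 8 * (3 * (k' * cC)) : ℕ) : ℤ) ≤ (g.rE z : ℕ) := by
      push_cast
      linarith
    exact_mod_cast h4

end base

/-- The same covering over an equal lattice. -/
def castC {Q : Type} [Group Q] {B : Lb.{0, v} Q} {l : L3 → B.L} {L L' : AddSubgroup (ℤ × ℤ)} (c : Cov B l L) (h : L = L') :
    Cov B l L' where
  st := c.st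
  hst y i := h ▸ c.hst y i

theorem castC_over {Q : Type} [Group Q] {B : Lb.{0, v} Q} {l : L3 → B.L} {L L' : AddSubgroup (ℤ × ℤ)} (c : Cov B l L)
    (h : L = L') (y : Q) (u : V) : (castC c h).Over y u ↔ c.Over y u := by
  subst h
  exact Iff.rfl

section sub

variable {G : Type} [Group G] [Finite G] {N C : Subgroup G} {eps : G →* ℤˣ} {k P : ℕ} {G0 : Subgroup G} {x : Fin 3 → G}
  (H : IvT eps G0 x)

omit [Finite G] in
/-- The lattice of `nums_lay` is the lattice of `G0`. -/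
theorem Ltc_G0 (s a' b' : Fin 3) :
    Ltc (ct (eps0 eps G0) (x0 H a' * x0 H s)) (ct (eps0 eps G0) (x0 H b' * x0 H s)) =
      Ltc (hhT eps G0 x a' - hhT eps G0 x s) (hhT eps G0 x b' - hhT eps G0 x s) := by
  rw [Ltc_eq, H.hh_sub, H.hh_sub]
  rfl

omit [Finite G] in
theorem Ltc_G0' (s a' b' : Fin 3) :
    Ltc (ct (eps0 eps G0) (x0 H a' * x0 H s)) (ct (eps0 eps G0) (x0 H b' * x0 H s)) =
      Ltc (cth eps G0 (x a' * x s)) (cth eps G0 (x b' * x s)) := by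
  rw [Ltc_eq]
  rfl

variable [Fintype G0] {B0 : Lb.{0, v} G0} {l0 : L3 → B0.L} {s a' b' : Fin 3} (hsa : s ≠ a') (hsb : s ≠ b') (hab : a' ≠ b')
  (hs : B0.q (l0 .t) = x0 H s) (ha : B0.q (l0 .a) = x0 H a') (hb : B0.q (l0 .b) = x0 H b')

/-- The covering of `G0`. -/
noncomputable def cov0 {L : AddSubgroup (ℤ × ℤ)}
    (hL : Ltc (ct (eps0 eps G0) (x0 H a' * x0 H s)) (ct (eps0 eps G0) (x0 H b' * x0 H s)) = L) : Cov B0 l0 L :=
  castC ((inv3_0 H).co hsa hsb hab hs ha hb).cov hL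

/-- THE BASE of `G0`, with the numbers and the layout of `nums_lay`. -/
theorem base_G0 (gn : GN N C eps k P) (hP : P ∣ Nat.card G0) {A0 : Set G0} (hi : ∀ i, B0.inv (l0 i) = l0 i)
    (hq : Injective (qq B0 l0)) (hii : ∀ x, B0.inv (B0.inv x) = x) (hA : ∀ i, B0.q (l0 i) ∈ A0)
    (hnc : H59.NCen (eps0 eps G0) ((x0 H a' * x0 H b') * (x0 H a' * x0 H b')))
    {M R r w : ℕ} {D : ℤ} {n nh m TT Gr K E gap U o pd : ℕ}
    (hr : 1 ≤ r) (hwk : k + 2 ≤ w) (hw5 : 5 ≤ w) (hD : 6 ≤ D) (hD4 : D % 4 = 2) (hgood : goodT (x0 H) s a' b' D)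
    (hR0 : 2 * r + 2 * w + 1 + 5 ≤ R) (hR : R ≤ 2 * r + 2 * w + 1 + 33) {L : AddSubgroup (ℤ × ℤ)}
    (hL : Ltc (ct (eps0 eps G0) (x0 H a' * x0 H s)) (ct (eps0 eps G0) (x0 H b' * x0 H s)) = L)
    {g : Geo L M R (dcL (2 * r + 2 * w + 1) (dW (dB r (2 * w)) (r + w) D)) (spL (2 * r + 2 * w + 1)) Gr}
    (hLay : Lay g k nh m TT (2 * r + 2 * w + 1))
    (hn : NumT (2 * r + 2 * w + 1) n k (2 * w * Nat.card (KH eps G0)) 4 (mmT k) (3 * (k * Nat.card C)) o pd nh m TT Gr K E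
      gap U)
    (h0 : (2 : ℤ) ≤ r + 1) (h1 : (r : ℤ) + 2 * w + 2 ≤ (2 * r + 2 * w + 1 : ℕ)) (hp : 2 ≤ 8 * (3 * (k * Nat.card C)))
    (hN : ∀ z : Zr g, 8 * (3 * (k * Nat.card C)) ≤ g.rE z)
    [dec : ∀ z : Zr g, DecidableEq (SS (cov0 H hsa hsb hab hs ha hb hL) (mnT (by omega) (by omega) (by omega) g)
      (r + 1) (r + 2 * w + 2) z)] :
    ∃ U : G0, (∀ y, eps0 eps G0 y = 1 → y * U = U * y) ∧
      BaseT A0 4 (inst (mnT (by omega) (by omega) (by omega) g) (cov0 H hsa hsb hab hs ha hb hL) hi hq hii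
          (r + 1) (r + 2 * w + 2) h0 h1 (8 * (3 * (k * Nat.card C))) hp hN)
        (VV (cov0 H hsa hsb hab hs ha hb hL) (mnT (by omega) (by omega) (by omega) g)
          (r + 1) (r + 2 * w + 2) (r + 2) (r + 2 * w + 1))
        (W2 (mnT (by omega) (by omega) (by omega) g) (cov0 H hsa hsb hab hs ha hb hL) (r + 1) (r + 2 * w + 2) (r + w + 1))
        (Lam2 (mnT (by omega) (by omega) (by omega) g) (cov0 H hsa hsb hab hs ha hb hL) (r + 1) (r + 2 * w + 2) (r + 2)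
          (r + w + 1) (r + 2 * w + 1)) (fun _ => U)
        (fun _ => (4 * (2 * w * Nat.card (KH eps G0)) ^ 2 + 1) * mmT (N.relIndex G0)) (fun _ => mmT (N.relIndex G0))
        (fun _ => gap) (fun _ => ()) := by
  subst hL
  have hk : 0 < k := by
    have := gn.idx
    rw [← this]
    exact Nat.pos_of_ne_zero N.index_ne_zero_of_finite
  have hk0 : 0 < N.relIndex G0 := Nat.pos_of_ne_zero (fun h => by
    have h2 := relIndex_dvd gn G0
    rw [h, zero_dvd_iff] at h2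
    omega)
  letI : ∀ z : Zr g, DecidableEq (SS ((inv3_0 H).co hsa hsb hab hs ha hb).cov
    (mnT (by omega) (by omega) (by omega) g) (r + 1) (r + 2 * w + 2) z) := dec
  exact base_num (inv3_0 H) hsa hsb hab hs ha hb (gn0 gn G0 hP) hk0 hi hq hii hA hnc (relIndex_dvd gn G0) hk
    (card_C0_dvd gn G0) Nat.card_pos hr hwk hw5 hD hD4 hgood hR0 hR hLay hn (by rw [card_K00]) h0 h1 hp hN

end sub

end Pool.Agent.Lib.MP_688fd0_co.SQ5.H84
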