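import Mathlib

/-!
Type C2 (helper84): calculus of the growth of the numbers: `Po S f`: `f ≤ S ^ c`, `Ex S f`: `f ≤ 2 ^ (S ^ c)`, `c` fixed.
-/

set_option autoImplicit false

namespace Pool.Agent.Lib.MP_688fd0_co.SQ5.H84

/-- Polynomial growth. -/
def Po {ι : Type*} (S f : ι → ℕ) : Prop := ∃ c : ℕ, ∀ i, f i ≤ S i ^ c

/-- Growth `2 ^ poly`. -/
def Ex {ι : Type*} (S f : ι → ℕ) : Prop := ∃ c : ℕ, ∀ i, f i ≤ 2 ^ (S i ^ c)

variable {ι : Type*} {S f g : ι → ℕ}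

theorem Po.mono (h : ∀ i, f i ≤ g i) (hg : Po S g) : Po S f := by
  obtain ⟨c, hc⟩ := hg
  exact ⟨c, fun i => (h i).trans (hc i)⟩

theorem Ex.mono (h : ∀ i, f i ≤ g i) (hg : Ex S g) : Ex S f := by
  obtain ⟨c, hc⟩ := hg
  exact ⟨c, fun i => (h i).trans (hc i)⟩

theorem Po.self : Po S S := ⟨1, fun i => by rw [pow_one]⟩

variable (hS : ∀ i, 4 ≤ S i)

include hS

theorem Po.const (N : ℕ) : Po S fun _ => N := by
  refine ⟨N, fun i => ?_⟩
  calc N ≤ 2 ^ N := Nat.lt_two_pow_self.le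
    _ ≤ S i ^ N := Nat.pow_le_pow_left (by have := hS i; omega) N

theorem Po.mul (hf : Po S f) (hg : Po S g) : Po S fun i => f i * g i := by
  obtain ⟨c, hc⟩ := hf
  obtain ⟨d, hd⟩ := hg
  exact ⟨c + d, fun i => by rw [pow_add]; exact Nat.mul_le_mul (hc i) (hd i)⟩

theorem Po.add (hf : Po S f) (hg : Po S g) : Po S fun i => f i + g i := by
  obtain ⟨c, hc⟩ := hf
  obtain ⟨d, hd⟩ := hg
  refine ⟨max c d + 1, fun i => ?_⟩
  have h4 := hS i
  have h1 : f i ≤ S i ^ max c d := (hc i).trans (Nat.pow_le_pow_right (by omega) (le_max_left _ _))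
  have h2 : g i ≤ S i ^ max c d := (hd i).trans (Nat.pow_le_pow_right (by omega) (le_max_right _ _))
  rw [pow_succ]
  calc f i + g i ≤ S i ^ max c d * 2 := by omega
    _ ≤ S i ^ max c d * S i := Nat.mul_le_mul_left _ (by omega)

theorem Po.pow (hf : Po S f) (n : ℕ) : Po S fun i => f i ^ n := by
  obtain ⟨c, hc⟩ := hf
  exact ⟨c * n, fun i => by rw [pow_mul]; exact Nat.pow_le_pow_left (hc i) n⟩

theorem Po.ex (hf : Po S f) : Ex S f := by
  obtain ⟨c, hc⟩ := hf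
  exact ⟨c, fun i => (hc i).trans Nat.lt_two_pow_self.le⟩

theorem Ex.const (N : ℕ) : Ex S fun _ => N := Po.ex hS (Po.const hS N)

theorem Ex.mul (hf : Ex S f) (hg : Ex S g) : Ex S fun i => f i * g i := by
  obtain ⟨c, hc⟩ := hf
  obtain ⟨d, hd⟩ := hg
  refine ⟨max c d + 1, fun i => ?_⟩
  have h4 := hS i
  have h1 : f i ≤ 2 ^ (S i ^ max c d) :=
    (hc i).trans (Nat.pow_le_pow_right (by norm_num) (Nat.pow_le_pow_right (by omega) (le_max_left _ _)))
  have h2 : g i ≤ 2 ^ (S i ^ max c d) :=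
    (hd i).trans (Nat.pow_le_pow_right (by norm_num) (Nat.pow_le_pow_right (by omega) (le_max_right _ _)))
  calc f i * g i ≤ 2 ^ (S i ^ max c d) * 2 ^ (S i ^ max c d) := Nat.mul_le_mul h1 h2
    _ = 2 ^ (S i ^ max c d * 2) := by rw [← pow_add]; ring_nf
    _ ≤ 2 ^ (S i ^ (max c d + 1)) := by
      refine Nat.pow_le_pow_right (by norm_num) ?_
      rw [pow_succ]
      exact Nat.mul_le_mul_left _ (by omega)

theorem Ex.add (hf : Ex S f) (hg : Ex S g) : Ex S fun i => f i + g i := by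
  have h1 : Ex S fun i => (f i + 1) * (g i + 1) := by
    obtain ⟨c, hc⟩ := hf
    obtain ⟨d, hd⟩ := hg
    have key : ∀ (u : ι → ℕ) (c : ℕ), (∀ i, u i ≤ 2 ^ (S i ^ c)) → Ex S fun i => u i + 1 := by
      intro u c hc
      refine ⟨c + 1, fun i => ?_⟩
      have h4 := hS i
      have h1 : 1 ≤ S i ^ c := Nat.one_le_pow _ _ (by omega)
      have h2 : 1 ≤ 2 ^ (S i ^ c) := Nat.one_le_pow _ _ (by norm_num)
      calc u i + 1 ≤ 2 ^ (S i ^ c) * 2 := by have := hc i; omega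
        _ = 2 ^ (S i ^ c + 1) := (pow_succ _ _).symm
        _ ≤ 2 ^ (S i ^ (c + 1)) := by
          refine Nat.pow_le_pow_right (by norm_num) ?_
          rw [pow_succ]
          calc S i ^ c + 1 ≤ S i ^ c * 2 := by omega
            _ ≤ S i ^ c * S i := Nat.mul_le_mul_left _ (by omega)
    exact Ex.mul hS (key f c hc) (key g d hd)
  refine Ex.mono (fun i => ?_) h1
  nlinarith [Nat.zero_le (f i * g i)]

theorem Ex.pow (hf : Ex S f) (hg : Po S g) : Ex S fun i => f i ^ g i := by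
  obtain ⟨c, hc⟩ := hf
  obtain ⟨d, hd⟩ := hg
  refine ⟨c + d, fun i => ?_⟩
  calc f i ^ g i ≤ (2 ^ (S i ^ c)) ^ g i := Nat.pow_le_pow_left (hc i) _
    _ = 2 ^ (S i ^ c * g i) := (pow_mul _ _ _).symm
    _ ≤ 2 ^ (S i ^ (c + d)) := by
      refine Nat.pow_le_pow_right (by norm_num) ?_
      rw [pow_add]
      exact Nat.mul_le_mul_left _ (hd i)

theorem Ex.fact (hf : Po S f) : Ex S fun i => (f i).factorial :=
  Ex.mono (fun i => Nat.factorial_le_pow (f i)) (Ex.pow hS (Po.ex hS hf) hf)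

end Pool.Agent.Lib.MP_688fd0_co.SQ5.H84
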