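import Pool.Agent.Lib.MP_688fd0_co.SQ5.H84.NumFT
import Pool.Agent.Lib.MP_688fd0_co.SQ5.FT.LayG

/-!
Type C2, threads over far bases (helper84): the numbers and the layout in one theorem (`nums_lay`).
-/

set_option autoImplicit false

namespace Pool.Agent.Lib.MP_688fd0_co.SQ5.H84

open Pool.Agent.Lib.MP_688fd0_co.OSF Pool.Agent.Lib.MP_688fd0_co.SQ5.H66 Pool.Agent.Lib.MP_688fd0_co.SQ5.H76
open Pool.Agent.Lib.MP_688fd0_co.SQ3 Pool.Agent.Lib.MP_688fd0_co.SQ5.H24 Pool.Agent.Lib.MP_688fd0_co.SQ5.H58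
open Subgroup

/-- The growth condition on the number of layers `mm = mF k`. -/
def GrowK (mF : ℕ → ℕ) : Prop := ∃ c : ℕ, ∀ S k : ℕ, 4 ≤ S → k ≤ S → mF k ≤ 2 ^ (S ^ c)

/-- Every number of the form `(p k)! * q k` with polynomials `p`, `q`. -/
theorem growK_fact {p q : ℕ → ℕ} {a b : ℕ} (hp : ∀ S k : ℕ, 4 ≤ S → k ≤ S → p k ≤ S ^ a)
    (hq : ∀ S k : ℕ, 4 ≤ S → k ≤ S → q k ≤ S ^ b) : GrowK fun k => (p k).factorial * q k := by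
  let I := {x : ℕ × ℕ // 4 ≤ x.1 ∧ x.2 ≤ x.1}
  have hS : ∀ i : I, 4 ≤ i.1.1 := fun i => i.2.1
  have h1 : Po (fun i : I => i.1.1) fun i => p i.1.2 := ⟨a, fun i => hp _ _ i.2.1 i.2.2⟩
  have h2 : Po (fun i : I => i.1.1) fun i => q i.1.2 := ⟨b, fun i => hq _ _ i.2.1 i.2.2⟩
  obtain ⟨c, hc⟩ := Ex.mul hS (Ex.fact hS h1) (Po.ex hS h2)
  exact ⟨c, fun S k h3 h4 => hc ⟨(S, k), h3, h4⟩⟩

theorem pow_mono2 {S u v x : ℕ} (hS : 4 ≤ S) (h : x ≤ 2 ^ (S ^ u)) (huv : u ≤ v) : x ≤ 2 ^ (S ^ v) :=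
  h.trans (Nat.pow_le_pow_right (by norm_num) (Nat.pow_le_pow_right (by omega) huv))

theorem n4 {S : ℕ} (hS : 4 ≤ S) : (S + 2) ^ 4 ≤ S ^ 8 := by
  calc (S + 2) ^ 4 ≤ (S ^ 2) ^ 4 := Nat.pow_le_pow_left (by nlinarith) 4
    _ = S ^ 8 := by rw [← pow_mul]

theorem mul24 {S u x : ℕ} (hS : 4 ≤ S) (hx : x ≤ 2 ^ (S ^ u)) : 24 * x ≤ 2 ^ (S ^ (u + 2)) := by
  have h1 : 1 ≤ S ^ u := Nat.one_le_pow _ _ (by omega)
  calc 24 * x ≤ 2 ^ 5 * 2 ^ (S ^ u) := Nat.mul_le_mul (by norm_num) hx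
    _ = 2 ^ (5 + S ^ u) := (pow_add _ _ _).symm
    _ ≤ 2 ^ (S ^ (u + 2)) := by
      refine Nat.pow_le_pow_right (by norm_num) ?_
      rw [pow_add]
      have h2 : 16 ≤ S ^ 2 := by nlinarith
      calc 5 + S ^ u ≤ S ^ u * 16 := by omega
        _ ≤ S ^ u * S ^ 2 := Nat.mul_le_mul_left _ h2

theorem mulW {S u v x y : ℕ} (hS : 4 ≤ S) (hx : x ≤ S ^ u) (hy : y ≤ 2 ^ (S ^ v)) :
    x * y ≤ 2 ^ (S ^ (max u v + 1)) := by
  have h1 : x ≤ 2 ^ (S ^ max u v) :=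
    pow_mono2 hS (hx.trans Nat.lt_two_pow_self.le) (le_max_left _ _)
  have h2 : y ≤ 2 ^ (S ^ max u v) := pow_mono2 hS hy (le_max_right _ _)
  calc x * y ≤ 2 ^ (S ^ max u v) * 2 ^ (S ^ max u v) := Nat.mul_le_mul h1 h2
    _ = 2 ^ (S ^ max u v * 2) := by rw [← pow_add]; ring_nf
    _ ≤ 2 ^ (S ^ (max u v + 1)) := by
      refine Nat.pow_le_pow_right (by norm_num) ?_
      rw [pow_succ]
      exact Nat.mul_le_mul_left _ (by omega)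

/-- THE NUMBERS AND THE LAYOUT. `kq = k`, `cS = 4`, `mm = mF k`, `e = 3 k |C|`, `o = k |C|`, `pd = 8 e`, `KV = wV |KH|`. -/
theorem nums_lay {mF : ℕ → ℕ} (hmF : GrowK mF) (c : ℕ) : ∃ e : ℕ, ∀ c₁ : ℕ, ∃ c₀ : ℕ, ∀ (G : Type) [Group G] [Finite G]
    (N C : Subgroup G) (eps : G →* ℤˣ) (k P : ℕ) (A : Set G) (a t b : G), SQD.Inv N C eps k P A c₁ a t b →
    ¬ SQD.RelN N C a t b ((k + (Nat.card G).primeFactorsList.length) ^ e) →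
    2 ^ ((k + (Nat.card G).primeFactorsList.length) ^ c₀) ≤ P →
      IvT eps (closure ({a, t, b} : Set G)) ![a, t, b] ∧ 4 ≤ k ∧ 0 < Nat.card C * k ∧
      Nat.card (KH eps (closure ({a, t, b} : Set G))) ∣ Nat.card C * k ∧
      P ∣ Nat.card (Th eps (closure ({a, t, b} : Set G))) ∧
      (∀ o : ℕ, k * Nat.card C ∣ o → ∀ B : G, B ^ o ∈ N ∧ (∀ g, eps g = 1 → B ^ o * g = g * B ^ o) ∧
        ∀ g, eps g = -1 → g * B ^ o * g⁻¹ = (B ^ o)⁻¹) ∧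
      ∀ (m0 r0 : ℕ) (d : ℕ → ℤ) (n wV : ℕ) (ρ : ℤ) (good : Fin 3 → Fin 3 → Fin 3 → ℤ → Prop),
        2 ≤ m0 → r0 < m0 → (∀ k, 2 ≤ d k ∧ d k % 2 = 0) → (∀ k, d k ≤ 6) → ρ = 0 ∨ ρ = 2 →
        (∀ s a b, s ≠ a → s ≠ b → a ≠ b → ∀ D, D % 4 = ρ → good s a b D ∨ good s a b (D - 4)) →
        m0 ≤ (k + (Nat.card G).primeFactorsList.length) ^ c → wV ≤ (k + (Nat.card G).primeFactorsList.length) ^ c →
        n ≤ (k + (Nat.card G).primeFactorsList.length + 2) ^ 4 → ∀ {t₁ t₂ : Fin 3}, t₁ ≠ t₂ →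
        ∃ nh m TT Gr K E gap U : ℕ,
          NumT m0 n k (wV * Nat.card (KH eps (closure ({a, t, b} : Set G)))) 4 (mF k) (3 * (k * Nat.card C))
            (k * Nat.card C) (8 * (3 * (k * Nat.card C))) nh m TT Gr K E gap U ∧
          ∃ s, (s = t₁ ∨ s = t₂) ∧ ∃ a' b' : Fin 3, s ≠ a' ∧ s ≠ b' ∧ a' ≠ b' ∧
          ∃ D : ℤ, D % 4 = ρ ∧ 6 ≤ D ∧ good s a' b' D ∧ 2 * K ≤ D + Wg m0 nh k ∧
          ∃ R : ℕ, m0 + 5 ≤ R ∧ R ≤ m0 + 33 ∧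
          ∃ g : Geo (Ltc (hhT eps (closure ({a, t, b} : Set G)) ![a, t, b] a' -
              hhT eps (closure ({a, t, b} : Set G)) ![a, t, b] s)
              (hhT eps (closure ({a, t, b} : Set G)) ![a, t, b] b' - hhT eps (closure ({a, t, b} : Set G)) ![a, t, b] s))
            (Nat.card (Th eps (closure ({a, t, b} : Set G)))) R (dcL m0 (dW d r0 D)) (spL m0) Gr,
          Lay g k nh m TT m0 ∧
          2 * (Nat.card (Th eps (closure ({a, t, b} : Set G))) : ℤ) ≤ (g.i0 + g.j0) * (D + Wg m0 nh k) ∧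
          g.i0 - g.j0 < 2 * K ∧ (E : ℤ) < g.i0 + g.j0 ∧
          (g.i0 + g.j0) * K ≤ Nat.card (Th eps (closure ({a, t, b} : Set G))) := by
  obtain ⟨cm, hcm⟩ := hmF
  obtain ⟨e₁, he₁⟩ := numT_exists (c + 8)
  obtain ⟨e, he⟩ := FT.num_layG e₁
  refine ⟨e, fun c₁ => ?_⟩
  obtain ⟨c₂, hc₂⟩ := he₁ (max (max c (c₁ + 1) + 1) (max (c₁ + 1 + 2) cm))
  obtain ⟨c₀, hc₀⟩ := he c₁ c₂
  refine ⟨c₀, ?_⟩
  intro G _ _ N C eps k P A a t b h hR hP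
  obtain ⟨h1, h2, h3, h4, h5, h6, h7, h8⟩ := hc₀ G N C eps k P A a t b h hR hP
  refine ⟨h1, h2, h4, h5, h6, h7, ?_⟩
  set S := k + (Nat.card G).primeFactorsList.length with hS
  have hS4 : 4 ≤ S := by omega
  intro m0 r0 d n wV ρ good hm hr0 hd hd6 hρ hgood hm0 hwV hn t₁ t₂ htt
  have hx1 : c₁ + 1 + 2 ≤ max (max c (c₁ + 1) + 1) (max (c₁ + 1 + 2) cm) := (le_max_left _ _).trans (le_max_right _ _)
  have hx2 : cm ≤ max (max c (c₁ + 1) + 1) (max (c₁ + 1 + 2) cm) := (le_max_right _ _).trans (le_max_right _ _)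
  have hx3 : max c (c₁ + 1) + 1 ≤ max (max c (c₁ + 1) + 1) (max (c₁ + 1 + 2) cm) := le_max_left _ _
  have hkC : k * Nat.card C ≤ 2 ^ (S ^ (c₁ + 1)) := by rw [mul_comm]; exact h3
  have h24 := mul24 hS4 hkC
  have h4x : 4 ≤ 2 ^ (S ^ (c₁ + 1 + 2)) := by
    calc 4 = 2 ^ 2 := by norm_num
      _ ≤ 2 ^ (S ^ (c₁ + 1 + 2)) := by
        refine Nat.pow_le_pow_right (by norm_num) ?_
        calc 2 ≤ S ^ 1 := by rw [pow_one]; omega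
          _ ≤ S ^ (c₁ + 1 + 2) := Nat.pow_le_pow_right (by omega) (by omega)
  have hKH : Nat.card (KH eps (closure ({a, t, b} : Set G))) ≤ 2 ^ (S ^ (c₁ + 1)) := (Nat.le_of_dvd h4 h5).trans h3
  have hpw : ∀ {x : ℕ}, x ≤ S ^ c → x ≤ S ^ (c + 8) := fun hx =>
    hx.trans (Nat.pow_le_pow_right (by omega) (by omega))
  obtain ⟨nh, m, TT, Gr, K, E, gap, U, D1, -, D3, -, D5, -⟩ := hc₂ S m0 n k
    (wV * Nat.card (KH eps (closure ({a, t, b} : Set G)))) 4 (mF k) (3 * (k * Nat.card C)) (k * Nat.card C)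
    (8 * (3 * (k * Nat.card C))) hS4 (by omega) (hpw hm0)
    ((hn.trans (n4 hS4)).trans (Nat.pow_le_pow_right (by omega) (by omega)))
    (by
      calc k ≤ S ^ 1 := by rw [pow_one]; omega
        _ ≤ S ^ (c + 8) := Nat.pow_le_pow_right (by omega) (by omega))
    (pow_mono2 hS4 (mulW hS4 hwV hKH) hx3)
    (pow_mono2 hS4 h4x hx1)
    (pow_mono2 hS4 (hcm S k hS4 (by omega)) hx2)
    (pow_mono2 hS4 (le_trans (by omega) h24) hx1)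
    (pow_mono2 hS4 (le_trans (by omega) h24) hx1)
    (pow_mono2 hS4 (le_trans (by omega) h24) hx1)
  exact ⟨nh, m, TT, Gr, K, E, gap, U, D1, h8 m0 r0 d k nh m TT Gr K E ρ good hm hr0 hd hd6 hρ hgood D1.nums D1.hW D1.hE1 D3
    D5 htt⟩

end Pool.Agent.Lib.MP_688fd0_co.SQ5.H84
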